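import Pool.Agent.MP_151d89_pr.H71.Micro
import Pool.Agent.MP_151d89_pr.H31.CH

/-!
No long thin oblique bunch of lines on the lattice.
-/

set_option autoImplicit false
open MeasureTheory Finset Filter

namespace Pool.Agent.MP_151d89_pr.H71
open Pool.Agent.MP_151d89_pr.H82 Pool.Agent.MP_151d89_pr.H33 Pool.Agent.MP_151d89_pr.H67
  Pool.Agent.MP_151d89_pr.H30
open Pool.Agent.MP_151d89_pr.H30W (lab off JJ PBStmt LabStmt IsPsi)
open Pool.Agent.MP_151d89_pr.H9 (nb Crn NBlat NBStmt Std)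
open Pool.Agent.MP_151d89_pr.H5 (ell)
open Pool.Agent.MP_151d89_pr.H55 (LipZ)
open Pool.Agent.MP_151d89_pr.H31

/-- the choice of the constants -/
theorem consts {θ A : ℝ} (hθ : |θ| < 1) (hA : 1 ≤ A) : ∃ (T : ℕ) (M η₀ : ℝ), 1 ≤ T ∧ 0 < η₀ ∧
    η₀ ≤ 1 / 4 ∧ 1 ≤ M ∧ ∀ s Λ W κ η : ℝ, 2 * T + 2 ≤ s → M * s ≤ Λ → 0 ≤ W → W + T + 4 ≤ A * s →
      s / 4 ≤ κ → κ + 2 ≤ s → 0 ≤ η → η ≤ η₀ →
      (8 * κ + 2 * W + 4) * (A * s) + 2 * (4 * ((Λ + 2 * T + 1) * (W + T + 3)) / T +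
        2 ^ T ^ 2 * T ^ 2 * ((κ + 2) * (A * s))) + 6 * ((W + 1) * (W + 4)) +
        (2 * W + 4) * ((Λ + 2) * 2 * η) <
      (1 - θ) * (κ * (1 - 2 * η) * (((1 + θ) * (Λ - 2 * W - 1) - 2 * W - 4) / 2 - 1)) := by
  rw [abs_lt] at hθ
  obtain ⟨a, ha⟩ : ∃ a, a = (1 - θ) * (1 + θ) := ⟨_, rfl⟩
  have a0 : 0 < a := ha ▸ mul_pos (by linarith) (by linarith)
  have a1 : a ≤ 1 := by linarith [sq_nonneg θ]
  have t1 := Nat.le_ceil (1024 * A / a)
  generalize ⌈1024 * A / a⌉₊ = T at t1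
  rw [div_le_iff₀ a0] at t1
  have T0 : (0 : ℝ) ≤ T := T.cast_nonneg
  have T1 : (1 : ℝ) ≤ T := by nlinarith
  obtain ⟨K, hK⟩ : ∃ K : ℝ, K = 2 ^ T ^ 2 * T ^ 2 := ⟨_, rfl⟩
  have K0 : 0 ≤ K * A := by rw [hK]; positivity
  have A2 : A ≤ A ^ 2 := by nlinarith
  have m1 := mul_div_cancel₀ (32 * (18 * A ^ 2 + 2 * (K * A) + 1)) a0.ne'
  have e1 : A * (a / (512 * A)) = a / 512 := by field_simp
  refine ⟨T, 32 * (18 * A ^ 2 + 2 * (K * A) + 1) / a, a / (512 * A), by exact_mod_cast T1,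
    by positivity, by rw [div_le_iff₀ (by positivity)]; linarith,
    by rw [le_div_iff₀ a0]; linarith, fun s Λ W κ η h1 h2 h3 h4 h5 h6 h7 h8 => ?_⟩
  have M1 : 1 ≤ 32 * (18 * A ^ 2 + 2 * (K * A) + 1) / a := by rw [le_div_iff₀ a0]; linarith
  have η1 : η ≤ 1 / 4 := h8.trans (by rw [div_le_iff₀ (by positivity)]; linarith)
  have s0 : 0 < s := by linarith
  have l1 : s ≤ Λ := le_trans (le_mul_of_one_le_left s0.le M1) h2
  have l2 : 32 * (18 * A ^ 2 + 2 * (K * A) + 1) * s ≤ a * Λ := by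
    rw [← m1, mul_assoc]
    exact mul_le_mul_of_nonneg_left h2 a0.le
  have l0 : 0 < Λ := by linarith
  have as1 : s ≤ A * s := le_mul_of_one_le_left s0.le hA
  have as2 : A * s ≤ A ^ 2 * s := by gcongr
  have ks : 0 ≤ K * A * s := by positivity
  have r1 : (8 * κ + 2 * W + 4) * (A * s) ≤ 10 * (A * s) * (A * s) := by gcongr; linarith
  have r2 : 4 * ((Λ + 2 * T + 1) * (W + T + 3)) / T ≤ a * Λ * s / 128 := by
    rw [div_le_iff₀ (by linarith)]
    calc _ ≤ 4 * ((2 * Λ) * (A * s)) := by gcongr <;> linarith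
      _ = 1024 * A * (Λ * s / 128) := by ring
      _ ≤ T * a * (Λ * s / 128) := by gcongr
      _ = _ := by ring
  have r3 : K * ((κ + 2) * (A * s)) ≤ K * (s * (A * s)) := by
    rw [hK]; gcongr
  have r4 : (W + 1) * (W + 4) ≤ A * s * (A * s) := by gcongr <;> linarith
  have r5 : (2 * W + 4) * ((Λ + 2) * 2 * η) ≤ a * Λ * s / 64 := by
    calc _ ≤ 2 * (A * s) * (2 * Λ * 2 * (a / (512 * A))) := by gcongr <;> linarith
      _ = 8 * Λ * s * (A * (a / (512 * A))) := by ring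
      _ = _ := by rw [e1]; ring
  have x1 : a * Λ / 2 - 10 * (A * s) ≤
      (1 - θ) * (((1 + θ) * (Λ - 2 * W - 1) - 2 * W - 4) / 2 - 1) := by
    have b1 : (1 - θ) * (W + 3) ≤ 2 * (W + 3) := by gcongr; linarith
    have b2 : a * (2 * W + 1) ≤ 1 * (2 * W + 1) := by gcongr
    rw [ha] at b2 ⊢
    linarith
  have y1 : s / 8 ≤ κ * (1 - 2 * η) := by nlinarith
  have z1 := mul_le_mul y1 x1 (by linarith) (by linarith)
  have z2 := mul_le_mul_of_nonneg_right l2 s0.le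
  have z3 := mul_le_mul_of_nonneg_right as2 s0.le
  have z4 := mul_pos s0 s0
  have z5 : 0 ≤ A * s * s := by positivity
  rw [← hK]
  linarith

theorem nb_mono {l : ℤ × ℤ → ℝ} (hl : LipZ l) {y z : ℤ × ℤ} (h1 : z.1 ≤ y.1) (h2 : z.2 ≤ y.2) :
    nb l z ≤ nb l y := by
  have a1 : (z.1 : ℝ) ≤ y.1 := by exact_mod_cast h1
  have a2 : (z.2 : ℝ) ≤ y.2 := by exact_mod_cast h2
  have := hl.2 y z
  rw [abs_of_nonneg (sub_nonneg.2 a1), abs_of_nonneg (sub_nonneg.2 a2)] at this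
  unfold H9.nb
  linarith

theorem nb_le {l : ℤ × ℤ → ℝ} (hl : LipZ l) (z : ℤ × ℤ) : nb l z ≤ 2 * nrm z := by
  have := hl.2 (0, 0) z
  have a1 : |(z.1 : ℝ)| ≤ nrm z := by exact_mod_cast le_max_left _ _
  have a2 : |(z.2 : ℝ)| ≤ nrm z := by exact_mod_cast le_max_right _ _
  rw [hl.1] at this
  simp only [Int.cast_zero, zero_sub, abs_neg] at this
  unfold H9.nb
  linarith [le_abs_self (z.1 : ℝ), le_abs_self (z.2 : ℝ)]

variable {al be s r : ℝ} {I : ℕ}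

/-- a site below the strip lies south west of a point of the staircase -/
theorem low (ha : 0 < al) (hb : 0 < be) (hs : 0 < s) {x y : ℤ} (h0 : (0 : ℝ) ≤ x)
    (h1 : x ≤ I * s * al) (h2 : be * x + al * y ≤ -(s * al * be)) :
    ∃ i : ℕ, i ≤ I ∧ x ≤ ⌊i * s * al⌋ ∧ y ≤ -⌊i * s * be⌋ := by
  have p0 : 0 < s * al := mul_pos hs ha
  have c1 := Nat.le_ceil (x / (s * al))
  have c2 := Nat.ceil_lt_add_one (div_nonneg h0 p0.le)
  refine ⟨⌈x / (s * al)⌉₊, Nat.ceil_le.2 (by rw [div_le_iff₀ p0]; linarith), ?_, ?_⟩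
  · rw [div_le_iff₀ p0] at c1
    exact Int.le_floor.2 (by linarith)
  · generalize ⌈x / (s * al)⌉₊ = i at c1 c2
    rw [← sub_lt_iff_lt_add, lt_div_iff₀ p0] at c2
    have c3 := mul_lt_mul_of_pos_left c2 hb
    have c4 : al * y ≤ al * -(i * s * be) := by linarith
    have c5 := le_of_mul_le_mul_left c4 ha
    have c6 := Int.floor_le (i * s * be)
    exact Int.cast_le (R := ℝ).1 (by push_cast; linarith)

/-- a site above the strip lies north east of a shifted point of the staircase -/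
theorem high (ha : 0 < al) (hb : 0 < be) (hs : 0 < s) {x y : ℤ} (h0 : r * s ≤ x)
    (h1 : x - r * s ≤ I * s * al) (h2 : (al + be) * (r * s) + s * al * be + al ≤ be * x + al * y) :
    ∃ i : ℕ, i ≤ I ∧ ⌊i * s * al⌋ + ⌊r * s⌋ ≤ x ∧ -⌊i * s * be⌋ + ⌊r * s⌋ ≤ y := by
  have p0 : 0 < s * al := mul_pos hs ha
  have c1 := Nat.floor_le (div_nonneg (sub_nonneg.2 h0) p0.le)
  have c2 := Nat.lt_floor_add_one ((x - r * s) / (s * al))
  have c0 := Int.floor_le (r * s)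
  refine ⟨⌊(x - r * s) / (s * al)⌋₊,
    Nat.floor_le_of_le (by rw [div_le_iff₀ p0]; linarith), ?_, ?_⟩ <;>
    generalize ⌊(x - r * s) / (s * al)⌋₊ = i at c1 c2
  · rw [le_div_iff₀ p0] at c1
    have c6 := Int.floor_le (i * s * al)
    exact Int.cast_le (R := ℝ).1 (by push_cast; linarith)
  · rw [div_lt_iff₀ p0] at c2
    have c3 := mul_lt_mul_of_pos_left c2 hb
    have c4 : al * (-(i * s * be) + 1 + r * s) ≤ al * y := by linarith
    have c5 := le_of_mul_le_mul_left c4 ha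
    have c6 := Int.lt_floor_add_one (i * s * be)
    exact Int.cast_le (R := ℝ).1 (by push_cast; linarith)

/-- the position of the trimmed strip -/
theorem geo (ha : 0 < al) (hb : 0 < be) (hs : 0 < s) {A m x y σ : ℝ} (m1 : A + r ≤ m * al)
    (m2 : A + r ≤ m * be) (hr : 0 ≤ r) (e : (al + be) * σ = 2 * (be * x + al * y))
    (u1 : m * (al + be) * s ≤ x - y) (u2 : x - y ≤ (I - m) * (al + be) * s)
    (σ1 : -(2 * (A * s)) ≤ σ) (σ2 : σ ≤ 2 * (A * s)) (hA : 0 ≤ A) :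
    r * s ≤ x ∧ x ≤ I * s * al ∧ -(I * s * be) ≤ y ∧ y ≤ A * s := by
  have g0 : 0 < al + be := by linarith
  have n1 := mul_le_mul_of_nonneg_right m1 (mul_pos g0 hs).le
  have n2 := mul_le_mul_of_nonneg_right m2 (mul_pos g0 hs).le
  have v1 := mul_le_mul_of_nonneg_left u1 ha.le
  have v2 := mul_le_mul_of_nonneg_left u2 ha.le
  have v3 := mul_le_mul_of_nonneg_left u1 hb.le
  have v4 := mul_le_mul_of_nonneg_left u2 hb.le
  have w1 := mul_le_mul_of_nonneg_left σ1 g0.le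
  have w2 := mul_le_mul_of_nonneg_left σ2 g0.le
  have w3 := mul_nonneg hr (mul_pos g0 hs).le
  have w4 := mul_nonneg hA (mul_pos g0 hs).le
  refine ⟨?_, ?_, ?_, ?_⟩ <;> refine le_of_mul_le_mul_left ?_ g0 <;> linarith

theorem nb_one (hP : PBStmt) (hL : LabStmt) (al be r : ℝ) : ∃ I : ℕ, ∀ μ, Std μ → ∀ Ψ, IsPsi μ Ψ →
    ∀ B η : ℝ, 0 < al → 0 < be → 0 < r → 0 < η →
    ∀ᶠ s : ℝ in atTop, ∀ (E n0 k : ℝ) (p q : ℤ × ℤ) (x0 y0 : ℤ), 0 ≤ E → E ≤ s →
      Crn (ell μ) Ψ E p q n0 → (nrm p : ℝ) ≤ B * s → (nrm q : ℝ) ≤ B * s →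
      (nrm (x0, y0) : ℝ) ≤ B * s → n0 ≤ k → k + s - n0 ≤ r * s →
      p.1 + (k + s - n0) + E + η * s ≤ x0 →
      q.2 + (k + s - n0) + E + η * s ≤ y0 - I * s * be →
        ¬ ∀ i : ℕ, i ≤ I →
          nb (ell μ) (x0 + ⌊i * s * al⌋, y0 - ⌊i * s * be⌋) ≤ k ∧
          k + s ≤ nb (ell μ) (x0 + ⌊i * s * al⌋ + ⌊r * s⌋, y0 - ⌊i * s * be⌋ + ⌊r * s⌋) := by
  by_cases h : 0 < al ∧ 0 < be ∧ 0 < r
  swap
  · exact ⟨0, fun _ _ _ _ _ _ a b c => absurd ⟨a, b, c⟩ h⟩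
  obtain ⟨ha, hb, hr⟩ := h
  have g0 : 0 < al + be := by linarith
  obtain ⟨θ, hθ⟩ : ∃ θ, θ = (al - be) / (al + be) := ⟨_, rfl⟩
  have θ1 : (al + be) * (1 - θ) = 2 * be := by rw [hθ]; field_simp; ring
  have θ2 : (al + be) * (1 + θ) = 2 * al := by rw [hθ]; field_simp; ring
  have θ0 : |θ| < 1 := abs_lt.2 ⟨by nlinarith, by nlinarith⟩
  obtain ⟨A, hA⟩ : ∃ A, A = 2 * r + (al + be) / 2 + 5 := ⟨_, rfl⟩
  have A1 : 1 ≤ A := by linarith
  obtain ⟨T, M, η₀, T1, η1, η2, M1, hfin⟩ := consts θ0 A1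
  obtain ⟨m, m1, m2⟩ : ∃ m, A + r ≤ m * al ∧ A + r ≤ m * be := by
    refine ⟨(A + r) / al + (A + r) / be, ?_, ?_⟩ <;> rw [add_mul, div_mul_cancel₀ _ (by linarith)]
    · exact le_add_of_nonneg_right (by positivity)
    · exact le_add_of_nonneg_left (by positivity)
  have i1 := Nat.le_ceil (2 * m + (M + 1) / (al + be))
  generalize ⌈2 * m + (M + 1) / (al + be)⌉₊ = I at i1
  rw [← le_sub_iff_add_le', div_le_iff₀ g0] at i1
  refine ⟨I, fun μ hs Ψ hΨ B η _ _ _ hη => ?_⟩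
  have := hs.gibbs.1
  have hl : LipZ (ell μ) := (H9.sym_row μ hs).1
  obtain ⟨D, hD⟩ : ∃ D, D = 2 * |B| + I * al + I * be + A + r + 1 := ⟨_, rfl⟩
  have I1 : 0 ≤ I * al := by positivity
  have I2 : 0 ≤ I * be := by positivity
  have D1 : 1 ≤ D := by linarith [abs_nonneg B]
  filter_upwards [CHA.con hL hs.gibbs hs.triv D1 (show (0 : ℝ) < 1 / 8 by norm_num),
    eventually_ge_atTop (2 * T + 17 : ℝ), eventually_ge_atTop (1 + 10 ^ 8 * D ^ 6),
    eventually_ge_atTop (1 / η₀)] with s ⟨N, s1, N1, N2, N3, hc⟩ s2 s3 s4 E n0 k p q x0 y0 E0 E1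
    hC hp hq h0 k0 k1 hx hy H
  have T0 : (1 : ℝ) ≤ T := by exact_mod_cast T1
  have s0 : 0 < s := by linarith
  have B1 : B * s ≤ |B| * s := by gcongr; exact le_abs_self B
  have B2 : 0 ≤ |B| * s := by positivity
  have B3 : 2 * (|B| * s) + I * s * al + I * s * be + A * s + r * s + s ≤ N := by
    rw [hD] at N2; linarith
  have p1 : 0 ≤ I * s * al := by positivity
  have p2 : 0 ≤ I * s * be := by positivity
  have p3 : 0 ≤ r * s := by positivity
  have p4 : 0 ≤ η * s := by positivity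
  have p5 : 0 ≤ (al + be) * s := by positivity
  have p6 : A * s = 2 * (r * s) + (al + be) * s / 2 + 5 * s := by rw [hA]; ring
  have w1 := Int.le_ceil (2 * (r * s) + (al + be) * s / 2 + 2)
  have w2 := Int.ceil_lt_add_one (2 * (r * s) + (al + be) * s / 2 + 2)
  have a1 := Int.le_ceil (m * (al + be) * s)
  have a2 := Int.ceil_lt_add_one (m * (al + be) * s)
  have b1 := Int.floor_le ((I - m) * (al + be) * s)
  have b2 := Int.lt_floor_add_one ((I - m) * (al + be) * s)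
  have c1 := Int.le_ceil (k + s / 4)
  have c2 := Int.ceil_lt_add_one (k + s / 4)
  have d1 := Int.floor_le (k + 3 * s / 4)
  have d2 := Int.lt_floor_add_one (k + 3 * s / 4)
  generalize ⌈2 * (r * s) + (al + be) * s / 2 + 2⌉ = W at w1 w2
  generalize ⌈m * (al + be) * s⌉ = a at a1 a2
  generalize ⌊(I - m) * (al + be) * s⌋ = b at b1 b2
  generalize ⌈k + s / 4⌉ = k₁ at c1 c2
  generalize ⌊k + 3 * s / 4⌋ = k₂ at d1 d2
  have l1 := mul_le_mul_of_nonneg_right i1 s0.le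
  have l2 : s ≤ M * s := le_mul_of_one_le_left s0.le M1
  have x1 : |(x0 : ℝ)| ≤ B * s := le_trans (by exact_mod_cast le_max_left _ _) h0
  have y1 : |(y0 : ℝ)| ≤ B * s := le_trans (by exact_mod_cast le_max_right _ _) h0
  rw [abs_le] at x1 y1
  obtain ⟨c, hcc⟩ : ∃ c, c = (1 - θ) * x0 + (1 + θ) * y0 := ⟨_, rfl⟩
  have e : ∀ z : ℤ × ℤ, (al + be) * ss θ c z =
      2 * (be * (z.1 - x0 : ℤ) + al * (z.2 - y0 : ℤ)) := fun z => by
    rw [ss, hcc]
    push_cast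
    linear_combination (z.1 - x0 : ℝ) * θ1 + (z.2 - y0 : ℝ) * θ2
  have G : ∀ z, In θ c (x0 - y0 + a + T - T) (x0 - y0 + b - T + T) (-W - 4) (W + 2 * T) z →
      (r * s ≤ (z.1 - x0 : ℤ) ∧ (z.1 - x0 : ℤ) ≤ I * s * al ∧ -(I * s * be) ≤ (z.2 - y0 : ℤ) ∧
        (z.2 - y0 : ℤ) ≤ A * s) ∧ nrm z ≤ N := fun z ⟨f1, f2, f3, f4⟩ => by
    have f5 : ((x0 - y0 + a + T - T : ℤ) : ℝ) ≤ (z.1 - z.2 : ℤ) := by exact_mod_cast f1
    have f6 : ((z.1 - z.2 : ℤ) : ℝ) ≤ (x0 - y0 + b - T + T : ℤ) := by exact_mod_cast f2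
    have f7 := geo (I := I) ha hb s0 m1 m2 hr.le (e z) (by push_cast at f5 ⊢; linarith)
      (by push_cast at f6 ⊢; linarith) (by linarith) (by linarith) (by linarith)
    refine ⟨f7, max_le ?_ ?_⟩ <;> push_cast at f7 <;> refine abs_le.2 ⟨?_, ?_⟩ <;>
      exact Int.cast_le (R := ℝ).1 (by push_cast; linarith [f7.1, f7.2.1, f7.2.2.1, f7.2.2.2])
  have hsq : St θ c (x0 - y0 + a + T - T) (x0 - y0 + b - T + T) (-W - 4) (W + 2 * T) ⊆
      CHA.sq N := fun z hz => by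
    have := (G z (mem_St.1 hz)).2
    simp only [CHA.sq, mem_Icc, Prod.le_def, nrm, Int.abs_eq_natAbs] at this ⊢
    omega
  have q1 : s * al * be * 4 ≤ (al + be) * ((al + be) * s) := by nlinarith [sq_nonneg (al - be)]
  have q2 := mul_le_mul_of_nonneg_left w1 g0.le
  have q3 : 0 ≤ (al + be) * (r * s) := by positivity
  have η3 : 1 / s ^ 12 ≤ η₀ := by
    rw [div_le_iff₀ η1] at s4
    rw [div_le_iff₀ (by positivity)]
    nlinarith [le_self_pow₀ s1 (show 12 ≠ 0 by norm_num)]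
  refine (micro hs.gibbs ((hL μ hs.gibbs hs.triv).1 _ _ _ (CHA.far_out N1)) θ0 (c := c)
    (u₀ := x0 - y0 + a + T) (u₁ := x0 - y0 + b - T) (W := W) (k₁ := k₁) (k₂ := k₂)
    (Int.cast_le (R := ℝ).1 (by push_cast; linarith))
    (Int.cast_le (R := ℝ).1 (by push_cast; linarith)) (Int.cast_le (R := ℝ).1 (by linarith)) T1
    (η := 1 / s ^ 12) (Jm := A * s) (by linarith) hsq (fun j j1 j2 => ?_) (fun z hz => ?_)
    (fun z hz => ?_) (by positivity)).not_gt (hfin s _ W _ _ (by linarith)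
      (by push_cast; linarith) (by linarith) (by linarith) (by linarith) (by linarith)
      (by positivity) η3)
  · have j3 : (k₁ : ℝ) ≤ j := by exact_mod_cast j1
    have j4 : (j : ℝ) ≤ k₂ + 1 := by exact_mod_cast j2
    have n1 := nb_le hl p
    have n2 := (abs_le.1 hC.2.2.1).1
    have n3 := Int.le_ceil (n0 - E - 1 / 8 * s)
    refine (CHA.pb hP hL hs hΨ D1 s1 N1 N3 (by positivity) hc E0 hC
      (Int.cast_le (R := ℝ).1 (by push_cast; linarith))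
      (Int.cast_le (R := ℝ).1 (by push_cast; linarith)) (by linarith)
      (Int.cast_le (R := ℝ).1 (by push_cast; linarith)) hsq fun z hz => ?_).trans (by linarith)
    obtain ⟨⟨f1, -, f3, -⟩, -⟩ := G z (mem_St.1 hz)
    push_cast at f1 f3
    constructor <;> exact Int.cast_lt (R := ℝ).1 (by push_cast; linarith)
  · obtain ⟨f1, f2, f3, f4⟩ := hz
    obtain ⟨⟨g1, g2, -⟩, g3⟩ := G z ⟨by omega, by omega, by linarith, by linarith⟩
    have g4 := mul_le_mul_of_nonneg_left f4 g0.le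
    obtain ⟨i, t1, t2, t3⟩ := low ha hb s0 (y := z.2 - y0) (p3.trans g1) g2 (by linarith [e z])
    have t4 := (nb_mono hl (z := z) (by simp only; omega) (by simp only; omega)).trans (H i t1).1
    refine le_trans (measureReal_mono fun f hf => ?_) (hc z (by omega))
    have h' : (k₁ : ℝ) < lab (off μ (CHA.far N)) f z := by exact_mod_cast hf
    rw [Set.mem_ofPred_eq, lt_abs]
    left
    linarith
  · obtain ⟨f1, f2, f3, f4⟩ := hz
    obtain ⟨⟨g1, g2, -⟩, g3⟩ := G z ⟨by omega, by omega, by linarith, by linarith⟩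
    have g4 := mul_le_mul_of_nonneg_left f3 g0.le
    obtain ⟨i, t1, t2, t3⟩ := high ha hb s0 (y := z.2 - y0) g1 (I := I) (by linarith)
      (by linarith [e z])
    have t4 := (H i t1).2.trans (nb_mono hl (y := z) (by simp only; omega) (by simp only; omega))
    refine le_trans (measureReal_mono fun f hf => ?_) (hc z (by omega))
    have h' : (lab (off μ (CHA.far N)) f z : ℝ) < k₂ := by exact_mod_cast hf
    rw [Set.mem_ofPred_eq, lt_abs]
    right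
    linarith

theorem nb_row (hP : PBStmt) (hL : LabStmt) : NBStmt := by
  choose I hI using nb_one hP hL
  exact ⟨I, fun μ hs Ψ hΨ al be r => hI al be r μ hs Ψ hΨ⟩

end Pool.Agent.MP_151d89_pr.H71
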