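import Pool.Agent.MP_151d89_pr.H58.Fin

/-!
Level lines of a homomorphism: labels, peaks, valleys; peaks with poor arms are sparse, and a
site with two rich arms sees a blocked peak with positive conditional probability.
-/

set_option autoImplicit false
open MeasureTheory Finset

namespace Pool.Agent.MP_151d89_pr.H71
open Pool.Agent.MP_151d89_pr.H82 Pool.Agent.MP_151d89_pr.H33 Pool.Agent.MP_151d89_pr.H67
  Pool.Agent.MP_151d89_pr.H30 Pool.Agent.MP_151d89_pr.H58
open Classical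

/-- L counts level lines: its increments are those of (x + y - f) / 2 -/
def Lab (L : Conf → ℤ × ℤ → ℤ) : Prop :=
  ∀ f, Hom f → ∀ y z : ℤ × ℤ, 2 * (L f y - L f z) = (y.1 + y.2 - f y) - (z.1 + z.2 - f z)

/-- changes inside Q do not change the label of a site whose height is unchanged -/
def Loc (L : Conf → ℤ × ℤ → ℤ) (Q : Finset (ℤ × ℤ)) : Prop :=
  ∀ f g, Hom f → Hom g → (∀ x, x ∉ Q → f x = g x) → ∀ z, f z = g z → L f z = L g z

/-- the east and north neighbours are lower -/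
def Pk (f : Conf) (z : ℤ × ℤ) : Prop := f (z + (1, 0)) = f z - 1 ∧ f (z + (0, 1)) = f z - 1

/-- the west and south neighbours are higher -/
def Vl (f : Conf) (z : ℤ × ℤ) : Prop := f (z - (1, 0)) = f z + 1 ∧ f (z - (0, 1)) = f z + 1

/-- a peak which is not a local maximum -/
def Blk (f : Conf) (z : ℤ × ℤ) : Prop :=
  Pk f z ∧ (f (z - (1, 0)) = f z + 1 ∨ f (z - (0, 1)) = f z + 1)

variable {L : Conf → ℤ × ℤ → ℤ} {f : Conf}

theorem stepE (hL : Lab L) (hf : Hom f) (z : ℤ × ℤ) :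
    (f (z + (1, 0)) = f z - 1 ∧ L f (z + (1, 0)) = L f z + 1) ∨
      (f (z + (1, 0)) = f z + 1 ∧ L f (z + (1, 0)) = L f z) := by
  have h1 := hL f hf (z + (1, 0)) z
  have h2 := hf (z + (1, 0)) z (by simp)
  rw [abs_eq (by norm_num)] at h2
  simp only [Prod.fst_add, Prod.snd_add] at h1
  omega

theorem stepN (hL : Lab L) (hf : Hom f) (z : ℤ × ℤ) :
    (f (z + (0, 1)) = f z - 1 ∧ L f (z + (0, 1)) = L f z + 1) ∨
      (f (z + (0, 1)) = f z + 1 ∧ L f (z + (0, 1)) = L f z) := by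
  have h1 := hL f hf (z + (0, 1)) z
  have h2 := hf (z + (0, 1)) z (by simp)
  rw [abs_eq (by norm_num)] at h2
  simp only [Prod.fst_add, Prod.snd_add] at h1
  omega

theorem lab_mono (hL : Lab L) (hf : Hom f) {y z : ℤ × ℤ} (h1 : z.1 ≤ y.1) (h2 : z.2 ≤ y.2) :
    L f z ≤ L f y ∧ L f y ≤ L f z + (y.1 - z.1) + (y.2 - z.2) := by
  have h3 := hL f hf y z
  have h4 := (lip hf y z).1
  have h5 := (lip hf z y).1
  rw [abs_sub_comm z.1, abs_sub_comm z.2] at h5
  rw [abs_of_nonneg (sub_nonneg.2 h1), abs_of_nonneg (sub_nonneg.2 h2)] at h4 h5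
  omega

/-- the edge from z in direction e is crossed, but few edges of the arm of length T are -/
def Poor (L : Conf → ℤ × ℤ → ℤ) (T : ℕ) (e : ℤ × ℤ) (f : Conf) (z : ℤ × ℤ) : Prop :=
  L f (z + e) = L f z + 1 ∧ L f (z + (T : ℤ) • e) ≤ L f z + 2

theorem poor_le (hL : Lab L) (hf : Hom f) {e : ℤ × ℤ} (he : e = (1, 0) ∨ e = (0, 1)) (T n : ℕ)
    (p : ℤ × ℤ) : ∑ i ∈ range n, ind (Poor L T e f (p + (i : ℤ) • e)) ≤
      (L f (p + (n : ℤ) • e) - L f p : ℤ) := by
  induction n with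
  | zero => simp
  | succ n ih =>
    rw [sum_range_succ]
    have e1 : p + ((n + 1 : ℕ) : ℤ) • e = p + (n : ℤ) • e + e := by
      push_cast; rw [add_smul, one_smul, add_assoc]
    have h2 : L f (p + (n : ℤ) • e) ≤ L f (p + (n : ℤ) • e + e) :=
      (lab_mono hL hf (by rcases he with rfl | rfl <;> simp)
        (by rcases he with rfl | rfl <;> simp)).1
    rw [e1]
    by_cases h : Poor L T e f (p + (n : ℤ) • e)
    · rw [ind_pos h, h.1]; push_cast at ih ⊢; linarith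
    · rw [ind_neg h]
      have : ((L f (p + (n : ℤ) • e) : ℤ) : ℝ) ≤ L f (p + (n : ℤ) • e + e) := by exact_mod_cast h2
      push_cast at ih ⊢; linarith

theorem poor_two (hL : Lab L) (hf : Hom f) {e : ℤ × ℤ} (he : e = (1, 0) ∨ e = (0, 1)) (T : ℕ) :
    ∀ n : ℕ, n ≤ T → ∀ p : ℤ × ℤ, ∑ i ∈ range n, ind (Poor L T e f (p + (i : ℤ) • e)) ≤ 2 := by
  intro n
  induction n with
  | zero => simp
  | succ n ih =>
    intro hn p
    by_cases h : Poor L T e f p
    · refine (poor_le hL hf he T _ p).trans ?_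
      have h2 : L f (p + ((n + 1 : ℕ) : ℤ) • e) ≤ L f (p + (T : ℤ) • e) :=
        (lab_mono hL hf (by rcases he with rfl | rfl <;> simp; omega)
          (by rcases he with rfl | rfl <;> simp; omega)).1
      have := h.2
      exact_mod_cast (by omega : L f (p + ((n + 1 : ℕ) : ℤ) • e) - L f p ≤ 2)
    · rw [sum_range_succ']
      simp only [Nat.cast_zero, zero_smul, add_zero, ind_neg h]
      refine le_of_eq_of_le (sum_congr rfl fun i _ => ?_) (ih (by omega) (p + e))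
      congr 2
      push_cast; rw [add_smul, one_smul]; abel

theorem sparse (hL : Lab L) (hf : Hom f) {e : ℤ × ℤ} (he : e = (1, 0) ∨ e = (0, 1)) (T : ℕ)
    (S S' : Finset (ℤ × ℤ)) (h : ∀ z ∈ S, ∀ i : ℕ, i < T → z - (i : ℤ) • e ∈ S') :
    T * ∑ z ∈ S, ind (Poor L T e f z) ≤ 2 * S'.card := by
  calc (T : ℝ) * ∑ z ∈ S, ind (Poor L T e f z)
      = ∑ i ∈ range T, ∑ z ∈ S, ind (Poor L T e f z) := by simp
    _ ≤ ∑ i ∈ range T, ∑ p ∈ S', ind (Poor L T e f (p + (i : ℤ) • e)) := by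
        refine sum_le_sum fun i hi => ?_
        have e1 : ∑ z ∈ S, ind (Poor L T e f z) = ∑ p ∈ S.image (fun z => z - (i : ℤ) • e),
            ind (Poor L T e f (p + (i : ℤ) • e)) := by
          rw [sum_image fun a _ b _ hab => sub_left_injective hab]
          simp
        rw [e1]
        exact sum_le_sum_of_subset_of_nonneg (image_subset_iff.2 fun z hz =>
          h z hz i (mem_range.1 hi)) fun _ _ _ => (ind_mem _).1
    _ ≤ ∑ _p ∈ S', (2 : ℝ) := by
        rw [sum_comm]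
        exact sum_le_sum fun p _ => poor_two hL hf he T T le_rfl p
    _ = 2 * S'.card := by simp [mul_comm]

/-- the open square of side T north east of z -/
noncomputable def sq (z : ℤ × ℤ) (T : ℕ) : Finset (ℤ × ℤ) :=
  Ioo z.1 (z.1 + T) ×ˢ Ioo z.2 (z.2 + T)

theorem mem_sq {z q : ℤ × ℤ} {T : ℕ} :
    q ∈ sq z T ↔ (z.1 < q.1 ∧ q.1 < z.1 + T) ∧ z.2 < q.2 ∧ q.2 < z.2 + T := by simp [sq]

theorem card_sq (z : ℤ × ℤ) (T : ℕ) : (sq z T).card ≤ T ^ 2 := by
  rw [sq, card_product, Int.card_Ioo, Int.card_Ioo, pow_two]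
  exact Nat.mul_le_mul (by omega) (by omega)

/-- both arms of z cross three lines, and the label of z is in the given range -/
def Arm (L : Conf → ℤ × ℤ → ℤ) (T : ℕ) (k₁ k₂ : ℤ) (f : Conf) (z : ℤ × ℤ) : Prop :=
  L f z + 3 ≤ L f (z + (T : ℤ) • (1, 0)) ∧ L f z + 3 ≤ L f (z + (T : ℤ) • (0, 1)) ∧
    k₁ ≤ L f z ∧ L f z < k₂

theorem exists_peak (hL : Lab L) (hf : Hom f) {T : ℕ} {k₁ k₂ : ℤ} {z : ℤ × ℤ}
    (h : Arm L T k₁ k₂ f z) : ∃ q ∈ sq z T, Pk f q ∧ k₁ ≤ L f q ∧ L f q ≤ k₂ + 1 := by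
  obtain ⟨h1, h2, h3, h4⟩ := h
  have hT : (3 : ℤ) ≤ T := by
    have := (lab_mono hL hf (y := z + (T : ℤ) • (1, 0)) (z := z) (by simp) (by simp)).2
    simp only [Prod.fst_add, Prod.snd_add, Prod.smul_mk, smul_eq_mul] at this h1
    omega
  have hp := lab_mono hL hf (y := z + (1, 1)) (z := z) (by simp) (by simp)
  simp only [Prod.fst_add, Prod.snd_add] at hp
  obtain ⟨q, hq, hm⟩ := exists_max_image
    ((Icc (z.1 + 1) (z.1 + T) ×ˢ Icc (z.2 + 1) (z.2 + T)).filter fun q =>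
      L f q = L f (z + (1, 1))) (fun q => q.1 + q.2)
    ⟨z + (1, 1), by simp; omega⟩
  simp only [mem_filter, mem_product, mem_Icc] at hq hm
  have a1 : q.1 < z.1 + T := by
    by_contra hc
    have := (lab_mono hL hf (y := q) (z := z + (T : ℤ) • (1, 0)) (by simp; omega)
      (by simp; omega)).1
    omega
  have a2 : q.2 < z.2 + T := by
    by_contra hc
    have := (lab_mono hL hf (y := q) (z := z + (T : ℤ) • (0, 1)) (by simp; omega)
      (by simp; omega)).1
    omega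
  refine ⟨q, mem_sq.2 (by omega), ⟨?_, ?_⟩, by omega, by omega⟩
  · rcases stepE hL hf q with h | h
    · exact h.1
    · have := hm (q + (1, 0)) ⟨by simp; omega, by omega⟩
      simp at this
  · rcases stepN hL hf q with h | h
    · exact h.1
    · have := hm (q + (0, 1)) ⟨by simp; omega, by omega⟩
      simp at this

theorem nbr {x y : ℤ × ℤ} (h : |x.1 - y.1| + |x.2 - y.2| = 1) :
    x = y + (1, 0) ∨ x = y + (0, 1) ∨ x = y - (1, 0) ∨ x = y - (0, 1) := by
  simp only [Prod.ext_iff, Prod.fst_add, Prod.snd_add, Prod.fst_sub, Prod.snd_sub]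
  rcases abs_cases (x.1 - y.1) with ⟨e1, _⟩ | ⟨e1, _⟩ <;>
  rcases abs_cases (x.2 - y.2) with ⟨e2, _⟩ | ⟨e2, _⟩ <;> omega

theorem hom_lower (hf : Hom f) {q : ℤ × ℤ} (h1 : Pk f q) (h2 : ¬ Blk f q) :
    Hom (Function.update f q (f q - 2)) := by
  have a1 := hf (q - (1, 0)) q (by simp)
  have a2 := hf (q - (0, 1)) q (by simp)
  rw [abs_eq (by norm_num)] at a1 a2
  have key : ∀ x : ℤ × ℤ, |x.1 - q.1| + |x.2 - q.2| = 1 → f x = f q - 1 := fun x hx => by
    have b1 := h1.1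
    have b2 := h1.2
    have b3 : ¬ (f (q - (1, 0)) = f q + 1 ∨ f (q - (0, 1)) = f q + 1) := fun e => h2 ⟨h1, e⟩
    rcases nbr hx with rfl | rfl | rfl | rfl <;> omega
  intro x y hxy
  by_cases hx : x = q
  · subst hx
    have hy : y ≠ x := by rintro rfl; simp at hxy
    rw [Function.update_self, Function.update_of_ne hy,
      key y (by rwa [abs_sub_comm y.1, abs_sub_comm y.2]), abs_eq (by norm_num)]
    omega
  · by_cases hy : y = q
    · subst hy
      rw [Function.update_self, Function.update_of_ne hx, key x hxy, abs_eq (by norm_num)]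
      omega
    · rw [Function.update_of_ne hx, Function.update_of_ne hy]
      exact hf x y hxy

theorem exists_blk (hL : Lab L) {Q : Finset (ℤ × ℤ)} (hl : Loc L Q) (hf : Hom f) {T : ℕ}
    {k₁ k₂ : ℤ} {z : ℤ × ℤ} (hQ : sq z T ⊆ Q) (h : Arm L T k₁ k₂ f z) :
    ∃ g ∈ FS (sq z T) f, ∃ q ∈ sq z T, Blk g q ∧ k₁ ≤ L g q ∧ L g q ≤ k₂ + 1 := by
  obtain ⟨g, hg, hm⟩ := exists_min_image (FS (sq z T) f) (fun g => ∑ x ∈ sq z T, g x)
    ⟨f, self_FS _ hf⟩
  obtain ⟨g1, g2⟩ := mem_FS.1 hg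
  have e : ∀ y, y ∉ sq z T → L g y = L f y := fun y hy =>
    hl g f g1 hf (fun x hx => g2 x fun hx' => hx (hQ hx')) y (g2 y hy)
  have hA : Arm L T k₁ k₂ g z := by
    unfold Arm
    rw [e z (by simp [mem_sq]), e _ (by simp [mem_sq]), e _ (by simp [mem_sq])]
    exact h
  obtain ⟨q, hq, hp, hk⟩ := exists_peak hL g1 hA
  refine ⟨g, hg, q, hq, by_contra fun hb => ?_, hk⟩
  have h3 := hm (Function.update g q (g q - 2)) (mem_FS.2 ⟨hom_lower g1 hp hb, fun x hx => by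
    rw [Function.update_of_ne (by rintro rfl; exact hx hq), g2 x hx]⟩)
  rw [sum_update_of_mem hq, sdiff_singleton_eq_erase, ← add_sum_erase _ g hq] at h3
  omega

theorem meas_Pk (z : ℤ × ℤ) : MeasurableSet {f : Conf | Pk f z} := by
  unfold Pk; measurability

theorem meas_Vl (z : ℤ × ℤ) : MeasurableSet {f : Conf | Vl f z} := by
  unfold Vl; measurability

theorem meas_Blk (z : ℤ × ℤ) : MeasurableSet {f : Conf | Blk f z} := by
  unfold Blk Pk; measurability

theorem meas_rng (hm : ∀ z, Measurable fun f => L f z) (z : ℤ × ℤ) (p : ℤ → Prop) :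
    MeasurableSet {f : Conf | p (L f z)} := hm z (MeasurableSet.of_discrete (s := {a | p a}))

theorem meas_Arm (hm : ∀ z, Measurable fun f => L f z) (T : ℕ) (k₁ k₂ : ℤ) (z : ℤ × ℤ) :
    MeasurableSet {f : Conf | Arm L T k₁ k₂ f z} :=
  (measurableSet_le ((hm _).add_const 3) (hm _)).inter
    ((measurableSet_le ((hm _).add_const 3) (hm _)).inter
      (meas_rng hm z fun a => k₁ ≤ a ∧ a < k₂))

/-- two rich arms force a blocked peak with conditional probability at least 2 ^ (-T ^ 2) -/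
theorem bv {μ : Measure Conf} (hμ : Gibbs μ) (hL : Lab L) (hm : ∀ z, Measurable fun f => L f z)
    {Q : Finset (ℤ × ℤ)} (hl : Loc L Q) {T : ℕ} (k₁ k₂ : ℤ) {z : ℤ × ℤ} (hQ : sq z T ⊆ Q) :
    μ.real {f | Arm L T k₁ k₂ f z} ≤
      2 ^ T ^ 2 * ∑ q ∈ sq z T, μ.real {f | Blk f q ∧ k₁ ≤ L f q ∧ L f q ≤ k₂ + 1} := by
  have := hμ.1
  have mB : ∀ q, MeasurableSet {f | Blk f q ∧ k₁ ≤ L f q ∧ L f q ≤ k₂ + 1} := fun q =>
    (meas_Blk q).inter (meas_rng hm q fun a => k₁ ≤ a ∧ a ≤ k₂ + 1)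
  set φ : Conf → ℝ := fun f => ∑ q ∈ sq z T, ind (Blk f q ∧ k₁ ≤ L f q ∧ L f q ≤ k₂ + 1) with hφ
  have mφ : Measurable φ := Finset.measurable_sum _ fun q _ => meas_ind (mB q)
  have p0 : ∀ f, 0 ≤ φ f := fun f => sum_nonneg fun _ _ => (ind_mem _).1
  have bφ : ∀ f, |φ f| ≤ (sq z T).card := fun f => by
    rw [abs_of_nonneg (p0 f)]
    exact (sum_le_sum fun _ _ => (ind_mem _).2).trans (by simp)
  rw [← sum_congr rfl fun q _ => int_ind μ (mB q),
    ← integral_finsetSum _ fun q _ => intg (meas_ind (mB q)) fun f => ind_abs _,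
    ← int_av hμ (sq z T) mφ bφ, ← integral_const_mul, ← int_ind μ (meas_Arm hm T k₁ k₂ z)]
  refine integral_mono_ae (intg (meas_ind (meas_Arm hm T k₁ k₂ z)) fun f => ind_abs _)
    ((intg (meas_av _ mφ) (av_abs bφ)).const_mul _) ?_
  filter_upwards [hμ.2.1] with f hf
  by_cases h : Arm L T k₁ k₂ f z
  · obtain ⟨g, hg, q, hq, hb⟩ := exists_blk hL hl hf hQ h
    have h1 : (1 : ℝ) ≤ ∑ a ∈ FS (sq z T) f, φ a := by
      refine le_trans ?_ (single_le_sum (fun a _ => p0 a) hg)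
      rw [← ind_pos hb]
      exact single_le_sum (f := fun q => ind (Blk g q ∧ k₁ ≤ L g q ∧ L g q ≤ k₂ + 1))
        (fun _ _ => (ind_mem _).1) hq
    rw [av_mul_card _ _ hf] at h1
    rw [ind_pos h]
    refine h1.trans (mul_le_mul_of_nonneg_right ?_ (av_nonneg p0 f))
    exact_mod_cast (card_le _ f).trans (Nat.pow_le_pow_right two_pos (card_sq z T))
  · rw [ind_neg h]
    exact mul_nonneg (by positivity) (av_nonneg p0 f)

end Pool.Agent.MP_151d89_pr.H71
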