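import Pool.Agent.MP_151d89_pr.H71.Vir
import Pool.Agent.MP_151d89_pr.H30W.Spec2

/-!
Columns of a slanted strip, and the mean number of peaks in a strip.
-/

set_option autoImplicit false
open MeasureTheory Finset

namespace Pool.Agent.MP_151d89_pr.H71
open Pool.Agent.MP_151d89_pr.H82 Pool.Agent.MP_151d89_pr.H33 Pool.Agent.MP_151d89_pr.H67
  Pool.Agent.MP_151d89_pr.H30 Pool.Agent.MP_151d89_pr.H58
open Pool.Agent.MP_151d89_pr.H30W (lab Xs Xn JJ)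
open Classical

/-- the first site of column x on or above the line at distance α -/
noncomputable def tb (θ c α : ℝ) (x : ℤ) : ℤ := ⌈(α + c - (1 - θ) * x) / (1 + θ)⌉

/-- the first site of column x strictly above the line at distance β -/
noncomputable def tt (θ c β : ℝ) (x : ℤ) : ℤ := ⌊(β + c - (1 - θ) * x) / (1 + θ)⌋ + 1

variable {θ c : ℝ}

theorem tb_le (hθ : |θ| < 1) {α : ℝ} {x t : ℤ} : tb θ c α x ≤ t ↔ α ≤ ss θ c (x, t) := by
  rw [tb, Int.ceil_le, div_le_iff₀ (by linarith [(abs_lt.1 hθ).1]), ss]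
  constructor <;> intro h <;> linarith

theorem lt_tt (hθ : |θ| < 1) {β : ℝ} {x t : ℤ} : t < tt θ c β x ↔ ss θ c (x, t) ≤ β := by
  rw [tt, Int.lt_add_one_iff, Int.le_floor, le_div_iff₀ (by linarith [(abs_lt.1 hθ).1]), ss]
  constructor <;> intro h <;> linarith

theorem ss_pred (x t : ℤ) : ss θ c (x, t - 1) = ss θ c (x, t) - (1 + θ) := by
  simp only [ss]; push_cast; ring

theorem ss_tb (hθ : |θ| < 1) (α : ℝ) (x : ℤ) :
    α ≤ ss θ c (x, tb θ c α x) ∧ ss θ c (x, tb θ c α x) ≤ α + 2 := by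
  have h := (tb_le (c := c) (α := α) (x := x) (t := tb θ c α x - 1) hθ).not.1 (by omega)
  rw [ss_pred] at h
  exact ⟨(tb_le hθ).1 le_rfl, by linarith [(abs_lt.1 hθ).2]⟩

theorem ss_tt (hθ : |θ| < 1) (β : ℝ) (x : ℤ) :
    β ≤ ss θ c (x, tt θ c β x) ∧ ss θ c (x, tt θ c β x) ≤ β + 2 := by
  have h := (lt_tt (c := c) (β := β) (x := x) (t := tt θ c β x - 1) hθ).1 (by omega)
  rw [ss_pred] at h
  exact ⟨(not_le.1 ((lt_tt hθ).not.1 (lt_irrefl _))).le, by linarith [(abs_lt.1 hθ).2]⟩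

theorem col (hθ : |θ| < 1) {a b : ℤ} {α β : ℝ} (h : α + 2 ≤ β) (X : Finset ℤ)
    (hX : ∀ x ∈ X, ∀ t, α ≤ ss θ c (x, t) → ss θ c (x, t) ≤ β → a ≤ x - t ∧ x - t ≤ b)
    (F : ℤ × ℤ → ℝ) (hF : ∀ z, F z ≤ F (z + (0, 1))) :
    ∑ x ∈ X, (F (x, tt θ c β x) - F (x, tb θ c α x)) ≤
      ∑ z ∈ St θ c a b α β, (F (z + (0, 1)) - F z) := by
  have h1 : ∀ x, tb θ c α x < tt θ c β x := fun x =>
    (lt_tt hθ).2 ((ss_tb hθ α x).2.trans h)
  have h2 : ∀ x, F (x, tt θ c β x) - F (x, tb θ c α x) =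
      ∑ i ∈ range (tt θ c β x - tb θ c α x).toNat,
        (F ((x, tb θ c α x + i) + (0, 1)) - F (x, tb θ c α x + i)) := fun x => by
    have := sum_range_sub (fun i : ℕ => F (x, tb θ c α x + i)) (tt θ c β x - tb θ c α x).toNat
    rw [Int.toNat_of_nonneg (by linarith [h1 x]), add_sub_cancel, Nat.cast_zero, add_zero] at this
    rw [← this]
    exact sum_congr rfl fun i _ => by simp [add_assoc]
  rw [sum_congr rfl fun x _ => h2 x, sum_sigma', ← sum_image (g := fun p : Σ _ : ℤ, ℕ =>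
    (p.1, tb θ c α p.1 + p.2)) (f := fun z => F (z + (0, 1)) - F z)]
  · refine sum_le_sum_of_subset_of_nonneg (image_subset_iff.2 fun p hp => ?_)
      fun z _ _ => sub_nonneg.2 (hF z)
    obtain ⟨p1, p2⟩ := mem_sigma.1 hp
    rw [mem_range] at p2
    have a1 := (tb_le (c := c) (α := α) (x := p.1) (t := tb θ c α p.1 + p.2) hθ).1 (by omega)
    have a2 := (lt_tt (c := c) (β := β) (x := p.1) (t := tb θ c α p.1 + p.2) hθ).1 (by omega)
    exact mem_St.2 ⟨(hX _ p1 _ a1 a2).1, (hX _ p1 _ a1 a2).2, a1, a2⟩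
  · rintro ⟨x, i⟩ _ ⟨y, j⟩ _ e
    simp only [Prod.mk.injEq] at e
    obtain ⟨rfl, e⟩ := e
    obtain rfl : i = j := by omega
    rfl

theorem lab_Lab (o : Conf → ℤ) : Lab (lab o) := fun f hf y z => by
  have h := (lip hf y z).2
  unfold lab
  rcases abs_cases (y.1 - z.1) with ⟨e1, _⟩ | ⟨e1, _⟩ <;>
  rcases abs_cases (y.2 - z.2) with ⟨e2, _⟩ | ⟨e2, _⟩ <;> omega

theorem blk_Xs {f : Conf} (hf : Hom f) {S : Finset (ℤ × ℤ)} {z : ℤ × ℤ} (hz : z ∈ S)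
    (h : Blk f z) : 1 ≤ Xs S z f := by
  have h1 := (H30W.Xn_mem S true z f).1
  have h2 := (H30W.Xn_mem S false z f).1
  have h3 := (ind_mem (H30W.Val z f ∧ H30W.Pk z f)).1
  have key : ∀ b, H30W.Leg b z 0 f → H30W.Hi b z f → 1 ≤ Xn S b z f := fun b a1 a2 => by
    rw [← ind_pos (show pt b z ((0 : ℕ) : ℤ) ∈ S ∧ H30W.Leg b z 0 f ∧ H30W.Hi b z f from
      ⟨by simpa [pt] using hz, a1, a2⟩)]
    exact single_le_sum (f := fun t : ℕ => ind (pt b z t ∈ S ∧ H30W.Leg b z t f ∧ H30W.Hi b z f))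
      (fun _ _ => (ind_mem _).1) (mem_range.2 (card_pos.2 ⟨z, hz⟩))
  unfold Xs
  rcases H30W.hi_or hf true z with a | a <;> rcases H30W.hi_or hf false z with b | b
  · rw [ind_pos (show H30W.Val z f ∧ H30W.Pk z f from ⟨⟨a, b⟩, h.1⟩)]
    linarith
  · linarith [key true (H30W.leg_zero.2 ⟨h.1.1, h.1.2, b⟩) a]
  · linarith [key false (H30W.leg_zero.2 ⟨h.1.2, h.1.1, a⟩) b]
  · have := h.2
    simp only [dir] at a b
    omega

variable {μ : Measure Conf} {o : Conf → ℤ} {S : Finset (ℤ × ℤ)}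

theorem int_JJ [IsFiniteMeasure μ] (ho : Measurable o) (z : ℤ × ℤ) (j : ℤ) :
    Integrable (fun f => ind (lab o f z = j) * Xs S z f) μ :=
  intg ((H30W.mw ho z fun a => ind (a = j)).mul (H30W.mXs S z)) (B := 2 * S.card + 1) fun f => by
    have h1 := ind_mem (lab o f z = j)
    have h2 := H30W.Xs_mem S z f
    rw [abs_of_nonneg (mul_nonneg h1.1 h2.1)]
    nlinarith

theorem JJ_mono (j : ℤ) {A A' : Finset (ℤ × ℤ)} (h : A ⊆ A') : JJ μ S o j A ≤ JJ μ S o j A' :=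
  sum_le_sum_of_subset_of_nonneg h fun z _ _ =>
    integral_nonneg fun f => mul_nonneg (ind_mem _).1 (H30W.Xs_mem S z f).1

theorem blk_JJ (hμ : Gibbs μ) (ho : Measurable o) {A : Finset (ℤ × ℤ)} (hA : A ⊆ S) (a b : ℤ) :
    ∑ z ∈ A, μ.real {f | Blk f z ∧ a ≤ lab o f z ∧ lab o f z ≤ b} ≤
      ∑ j ∈ Icc a b, JJ μ S o j A := by
  have := hμ.1
  unfold JJ
  rw [sum_comm]
  refine sum_le_sum fun z hz => ?_
  have m : MeasurableSet {f | Blk f z ∧ a ≤ lab o f z ∧ lab o f z ≤ b} :=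
    (meas_Blk z).inter (meas_rng (H30W.mlab ho) z fun u => a ≤ u ∧ u ≤ b)
  rw [← int_ind μ m, ← integral_finsetSum _ fun j _ => int_JJ ho z j]
  refine integral_mono_ae (intg (meas_ind m) fun f => ind_abs _)
    (integrable_finsetSum _ fun j _ => int_JJ ho z j) (hμ.2.1.mono fun f hf => ?_)
  have h0 : ∀ j, 0 ≤ ind (lab o f z = j) * Xs S z f := fun j =>
    mul_nonneg (ind_mem _).1 (H30W.Xs_mem S z f).1
  by_cases h : Blk f z ∧ a ≤ lab o f z ∧ lab o f z ≤ b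
  · refine le_trans ?_ (single_le_sum (fun j _ => h0 j) (mem_Icc.2 h.2))
    rw [ind_pos rfl, one_mul]
    exact (ind_mem _).2.trans (blk_Xs hf (hA hz) h.1)
  · exact (ind_neg h).le.trans (sum_nonneg fun j _ => h0 j)

theorem sum_sq (T : ℕ) {D A : Finset (ℤ × ℤ)} (h : ∀ z ∈ D, sq z T ⊆ A) {φ : ℤ × ℤ → ℝ}
    (hφ : ∀ z, 0 ≤ φ z) : ∑ z ∈ D, ∑ q ∈ sq z T, φ q ≤ T ^ 2 * ∑ q ∈ A, φ q := by
  have e : ∀ z, ∑ q ∈ sq z T, φ q = ∑ v ∈ sq 0 T, φ (z + v) := fun z =>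
    (sum_equiv (Equiv.addLeft z) (fun v => by simp [mem_sq]) fun _ _ => rfl).symm
  calc ∑ z ∈ D, ∑ q ∈ sq z T, φ q = ∑ v ∈ sq 0 T, ∑ z ∈ D, φ (z + v) := by
        rw [sum_comm]; exact sum_congr rfl fun z _ => e z
    _ ≤ ∑ _v ∈ sq 0 T, ∑ q ∈ A, φ q := by
        refine sum_le_sum fun v hv => ?_
        rw [← sum_image (g := fun z => z + v) fun a _ b _ hab => add_right_cancel hab]
        refine sum_le_sum_of_subset_of_nonneg (image_subset_iff.2 fun z hz => h z hz ?_)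
          fun _ _ _ => hφ _
        simpa [mem_sq] using hv
    _ ≤ _ := by
        rw [sum_const, nsmul_eq_mul]
        exact mul_le_mul_of_nonneg_right (by exact_mod_cast card_sq 0 T)
          (sum_nonneg fun _ _ => hφ _)

theorem pk_le {L : Conf → ℤ × ℤ → ℤ} {f : Conf} (hL : Lab L) (hf : Hom f) (T : ℕ) (k₁ k₂ : ℤ)
    (z : ℤ × ℤ) : ind (Pk f z ∧ k₁ ≤ L f z ∧ L f z < k₂) ≤
      ind (Poor L T (1, 0) f z) + ind (Poor L T (0, 1) f z) + ind (Arm L T k₁ k₂ f z) := by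
  have h1 := stepE hL hf z
  have h2 := stepN hL hf z
  unfold ind Pk Poor Arm
  split_ifs <;> norm_num
  omega

/-- the mean number of peaks of the bunch in the strip -/
theorem peaks (hμ : Gibbs μ) (ho : Measurable o) (hl : Loc (lab o) S) (hθ : |θ| < 1)
    {u₀ u₁ k₁ k₂ : ℤ} {W Jm : ℝ} {T : ℕ} (hT : 1 ≤ T) (hW : 0 ≤ W) (hu : u₀ ≤ u₁) (hk : k₁ ≤ k₂)
    (hS : St θ c (u₀ - T) (u₁ + T) (-W - 4) (W + 2 * T) ⊆ S)
    (hJ : ∀ j, k₁ ≤ j → j ≤ k₂ + 1 →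
      JJ μ S o j (St θ c (u₀ - T) (u₁ + T) (-W - 4) (W + 2 * T)) ≤ Jm) :
    ∫ f, ∑ z ∈ St θ c u₀ u₁ (-W - 4) W, ind (Pk f z ∧ k₁ ≤ lab o f z ∧ lab o f z < k₂) ∂μ ≤
      4 * ((u₁ - u₀ + 2 * T + 1) * (W + T + 3)) / T + 2 ^ T ^ 2 * T ^ 2 * ((k₂ - k₁ + 2) * Jm) := by
  have := hμ.1
  have hθ' := abs_lt.1 hθ
  have T1 : (1 : ℝ) ≤ T := by exact_mod_cast hT
  set D := St θ c u₀ u₁ (-W - 4) W
  set A := St θ c (u₀ - T) (u₁ + T) (-W - 4) (W + 2 * T)
  have hq : ∀ z ∈ D, sq z T ⊆ A := fun z hz q hq => by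
    obtain ⟨a1, a2, a3, a4⟩ := mem_St.1 hz
    obtain ⟨⟨b1, b2⟩, b3, b4⟩ := mem_sq.1 hq
    have c1 : (z.1 : ℝ) < q.1 := by exact_mod_cast b1
    have c2 : (q.1 : ℝ) < z.1 + T := by exact_mod_cast b2
    have c3 : (z.2 : ℝ) < q.2 := by exact_mod_cast b3
    have c4 : (q.2 : ℝ) < z.2 + T := by exact_mod_cast b4
    unfold ss at a3 a4
    exact mem_St.2 ⟨by omega, by omega, by unfold ss; nlinarith, by unfold ss; nlinarith⟩
  have mA := meas_Arm (H30W.mlab ho) T k₁ k₂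
  have iA : ∀ z, Integrable (fun f => ind (Arm (lab o) T k₁ k₂ f z)) μ := fun z =>
    intg (meas_ind (mA z)) fun f => ind_abs _
  have h1 : ∫ f, ∑ z ∈ D, ind (Arm (lab o) T k₁ k₂ f z) ∂μ ≤
      2 ^ T ^ 2 * T ^ 2 * ((k₂ - k₁ + 2) * Jm) := by
    rw [integral_finsetSum _ fun z _ => iA z, sum_congr rfl fun z _ => int_ind μ (mA z)]
    refine (sum_le_sum fun z hz => bv hμ (lab_Lab o) (H30W.mlab ho) hl k₁ k₂
      ((hq z hz).trans hS)).trans ?_
    rw [← mul_sum, mul_assoc]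
    refine mul_le_mul_of_nonneg_left ((sum_sq T hq fun _ => measureReal_nonneg).trans
      (mul_le_mul_of_nonneg_left ((blk_JJ hμ ho hS _ _).trans ?_) (by positivity))) (by positivity)
    refine (sum_le_sum fun j hj => hJ j (mem_Icc.1 hj).1 (mem_Icc.1 hj).2).trans (le_of_eq ?_)
    rw [sum_const, nsmul_eq_mul, Int.card_Icc]
    congr 1
    exact_mod_cast (show (((k₂ + 1 + 1 - k₁).toNat : ℕ) : ℤ) = k₂ - k₁ + 2 by omega)
  have h2 : ∀ f, Hom f → ∀ e : ℤ × ℤ, e = (1, 0) ∨ e = (0, 1) →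
      ∑ z ∈ D, ind (Poor (lab o) T e f z) ≤ 2 * ((u₁ - u₀ + 2 * T + 1) * (W + T + 3)) / T := by
    intro f hf e he
    have a := sparse (lab_Lab o) hf he T D (St θ c (u₀ - T) (u₁ + T) (-W - 4 - 2 * T) W)
      fun z hz i hi => by
        obtain ⟨a1, a2, a3, a4⟩ := mem_St.1 hz
        have c1 : (i : ℝ) < T := by exact_mod_cast hi
        have c2 : (0 : ℝ) ≤ i := i.cast_nonneg
        rcases he with rfl | rfl <;> refine mem_St.2 ⟨by simp; omega, by simp; omega, ?_, ?_⟩ <;>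
          rw [ss_sub] <;> simp <;> nlinarith
    have b := card_St (θ := θ) (c := c) (show u₀ - T ≤ u₁ + T by omega)
      (show -W - 4 - 2 * T ≤ W by linarith)
    push_cast at b
    rw [le_div_iff₀ (by linarith)]
    linarith
  refine le_trans (integral_mono_ae (integrable_finsetSum _ fun z _ => intg (meas_ind
    ((meas_Pk z).inter (meas_rng (H30W.mlab ho) z fun u => k₁ ≤ u ∧ u < k₂))) fun f => ind_abs _)
    ((integrable_const (4 * ((u₁ - u₀ + 2 * T + 1) * (W + T + 3)) / T : ℝ)).add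
      (integrable_finsetSum D fun z _ => iA z)) (hμ.2.1.mono fun f hf => ?_)) ?_
  · refine (sum_le_sum fun z _ => pk_le (lab_Lab o) hf T k₁ k₂ z).trans ?_
    have a1 := h2 f hf _ (Or.inl rfl)
    have a2 := h2 f hf _ (Or.inr rfl)
    simp only [sum_add_distrib, Pi.add_apply, mul_div_assoc] at a1 a2 ⊢
    linarith
  · rw [integral_add' (integrable_const _) (integrable_finsetSum D fun z _ => iA z),
      integral_const, probReal_univ, one_smul]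
    linarith

end Pool.Agent.MP_151d89_pr.H71
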