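import Pool.Agent.MP_151d89_pr.H71.Col
import Pool.Agent.MP_151d89_pr.H30W.Ward

/-!
The virial inequality in the mean: a bunch of lines in a long slanted strip needs pressure.
-/

set_option autoImplicit false
open MeasureTheory Finset

namespace Pool.Agent.MP_151d89_pr.H71
open Pool.Agent.MP_151d89_pr.H82 Pool.Agent.MP_151d89_pr.H33 Pool.Agent.MP_151d89_pr.H67
  Pool.Agent.MP_151d89_pr.H30 Pool.Agent.MP_151d89_pr.H58
open Pool.Agent.MP_151d89_pr.H30W (lab Xs Xn JJ OffOk)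
open Classical

variable {θ c : ℝ} {μ : Measure Conf} {o : Conf → ℤ} {u₀ u₁ W k₁ k₂ : ℤ}

theorem w_low {a b M : ℝ} (ha : 0 ≤ a) (hb : 0 ≤ b) (hM : a ≤ M) (h : a - b ≤ 8) {p : Prop}
    (hp : a ≠ 0 → p) (l : ℤ) :
    -(ind p * (M * ind (l = k₁) + 8 * ∑ j ∈ Ioo k₁ k₂, ind (l = j))) ≤
      b * ind (k₁ < l ∧ l ≤ k₂) - a * ind (k₁ < l + 1 ∧ l + 1 ≤ k₂) := by
  have e : ∑ j ∈ Ioo k₁ k₂, ind (l = j) = ind (k₁ < l ∧ l < k₂) := by
    unfold ind
    convert sum_ite_eq (Ioo k₁ k₂) l fun _ => (1 : ℝ)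
    exact mem_Ioo.symm
  rw [e]
  by_cases h0 : a = 0
  · have := mul_nonneg (ind_mem p).1 (add_nonneg (mul_nonneg (ha.trans hM) (ind_mem (l = k₁)).1)
      (mul_nonneg (by norm_num : (0 : ℝ) ≤ 8) (ind_mem (k₁ < l ∧ l < k₂)).1))
    have := mul_nonneg hb (ind_mem (k₁ < l ∧ l ≤ k₂)).1
    rw [h0]
    linarith
  · rw [ind_pos (hp h0)]
    unfold ind
    split_ifs <;> first | omega | linarith

/-- the Ward inequality for the virial weight -/
theorem ward_om (hμ : Gibbs μ) {p q : ℤ × ℤ} (ho : OffOk o p q) (hθ : |θ| < 1) (hW : 1 ≤ W)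
    (hk : k₁ ≤ k₂) {A : Finset (ℤ × ℤ)} (hA : ∀ z, In θ c u₀ u₁ (-W - 2) (W + 2) z → z ∈ A)
    (hS : A ⊆ Icc p q) {Jm : ℝ} (hJ : ∀ j, k₁ ≤ j → j ≤ k₂ → JJ μ (Icc p q) o j A ≤ Jm) :
    -((8 * (k₂ - k₁) + 2 * W + 4) * Jm) ≤
      ∫ f, ∑ z ∈ Icc p q, (ind (Vl f z ∧ k₁ < lab o f z ∧ lab o f z ≤ k₂) * om θ c u₀ u₁ W z -
        ind (Pk f z ∧ k₁ ≤ lab o f z ∧ lab o f z < k₂) * om θ c u₀ u₁ W z) ∂μ := by
  have := hμ.1
  have W1 : (1 : ℝ) ≤ W := by exact_mod_cast hW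
  set ω := om θ c u₀ u₁ W with hω
  have ω0 : ∀ z, 0 ≤ ω z ∧ ω z ≤ 2 * W + 4 := om_mem hW
  set w : ℤ × ℤ → ℤ → ℝ := fun z l => ω z * ind (k₁ < l ∧ l ≤ k₂) with hw
  have w0 : ∀ z l, 0 ≤ w z l ∧ w z l ≤ 2 * W + 4 := fun z l =>
    ⟨mul_nonneg (ω0 z).1 (ind_mem _).1,
      (mul_le_of_le_one_right (ω0 z).1 (ind_mem _).2).trans (ω0 z).2⟩
  have h := H30W.ward_row μ hμ p q o w (2 * W + 4) ho.1 ho.2 w0 fun z l hz => by
    have : ω z = 0 := by_contra fun e => hz (hS (hA z (om_supp e)))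
    simp only [hw, this, zero_mul]
  have J0 : 0 ≤ Jm := le_trans (sum_nonneg fun z _ => integral_nonneg fun f =>
    mul_nonneg (ind_mem _).1 (H30W.Xs_mem _ z f).1) (hJ k₁ le_rfl hk)
  have i1 : ∀ z, Integrable (fun f => ind (Vl f z ∧ k₁ < lab o f z ∧ lab o f z ≤ k₂) * ω z -
      ind (Pk f z ∧ k₁ ≤ lab o f z ∧ lab o f z < k₂) * ω z) μ := fun z =>
    ((intg (meas_ind ((meas_Vl z).inter (meas_rng (H30W.mlab ho.1) z fun u => k₁ < u ∧ u ≤ k₂)))
      fun f => ind_abs _).mul_const _).sub ((intg (meas_ind ((meas_Pk z).inter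
        (meas_rng (H30W.mlab ho.1) z fun u => k₁ ≤ u ∧ u < k₂))) fun f => ind_abs _).mul_const _)
  rw [integral_finsetSum _ fun z _ => i1 z]
  refine le_trans ?_ (h.trans (le_of_eq (sum_congr rfl fun z _ => ?_)))
  · set Y : ℤ × ℤ → ℤ → ℝ := fun z j => ∫ f, ind (lab o f z = j) * Xs (Icc p q) z f ∂μ with hY
    have i2 : ∀ z, Integrable (fun f => -(ind (z ∈ A) * ((2 * W + 4) *
        (ind (lab o f z = k₁) * Xs (Icc p q) z f) +
          8 * ∑ j ∈ Ioo k₁ k₂, ind (lab o f z = j) * Xs (Icc p q) z f))) μ := fun z =>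
      ((((int_JJ ho.1 z k₁).const_mul _).add ((integrable_finsetSum _ fun j _ =>
        int_JJ ho.1 z j).const_mul _)).const_mul _).neg
    refine le_trans ?_ (sum_le_sum fun z _ => integral_mono (i2 z) ?_ fun f => ?_)
    · have e : ∀ z, ∫ f, -(ind (z ∈ A) * ((2 * W + 4) * (ind (lab o f z = k₁) * Xs (Icc p q) z f) +
          8 * ∑ j ∈ Ioo k₁ k₂, ind (lab o f z = j) * Xs (Icc p q) z f)) ∂μ =
          -(ind (z ∈ A) * ((2 * W + 4) * Y z k₁ + 8 * ∑ j ∈ Ioo k₁ k₂, Y z j)) := fun z => by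
        rw [integral_neg, integral_const_mul, integral_add ((int_JJ ho.1 z k₁).const_mul _)
          ((integrable_finsetSum _ fun j _ => int_JJ ho.1 z j).const_mul _), integral_const_mul,
          integral_const_mul, integral_finsetSum _ fun j _ => int_JJ ho.1 z j]
      rw [sum_congr rfl fun z _ => e z, sum_neg_distrib, neg_le_neg_iff]
      simp only [ind, ite_mul, one_mul, zero_mul]
      rw [← sum_filter, filter_mem_eq_inter, inter_eq_right.2 hS, sum_add_distrib, ← mul_sum,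
        ← mul_sum, sum_comm]
      have a1 := mul_le_mul_of_nonneg_left (hJ k₁ le_rfl hk) (show (0 : ℝ) ≤ 2 * W + 4 by linarith)
      have a2 := sum_le_card_nsmul (Ioo k₁ k₂) _ Jm fun j hj =>
        hJ j (mem_Ioo.1 hj).1.le (mem_Ioo.1 hj).2.le
      have a3 : ((Ioo k₁ k₂).card : ℝ) ≤ k₂ - k₁ := by
        rw [Int.card_Ioo]
        exact_mod_cast (show (((k₂ - k₁ - 1).toNat : ℕ) : ℤ) ≤ k₂ - k₁ by omega)
      have a4 := mul_le_mul_of_nonneg_right a3 J0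
      rw [nsmul_eq_mul] at a2
      unfold JJ at a1 a2
      simp only [hY]
      linarith
    · have b : ∀ (X : Conf → ℝ) (y : ℤ × ℤ), Measurable X →
          (∀ f, 0 ≤ X f ∧ X f ≤ (Icc p q).card + 1) →
          Integrable (fun f => X f * (w y (lab o f z) - w z (lab o f z + 1))) μ := fun X y m hX =>
        intg (m.mul (H30W.mw ho.1 z fun l => w y l - w z (l + 1)))
          (B := ((Icc p q).card + 1) * (2 * W + 4)) fun f => by
            rw [abs_mul, abs_of_nonneg (hX f).1]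
            refine mul_le_mul (hX f).2 (abs_le.2 ?_) (abs_nonneg _) (by positivity)
            constructor <;> linarith [w0 y (lab o f z), w0 z (lab o f z + 1)]
      have b1 : ∀ e f, 0 ≤ Xn (Icc p q) e z f ∧ Xn (Icc p q) e z f ≤ (Icc p q).card + 1 :=
        fun e f => ⟨(H30W.Xn_mem _ e z f).1, by linarith [(H30W.Xn_mem (Icc p q) e z f).2]⟩
      exact ((b _ _ (H30W.mXn _ _ _) (b1 true)).add (b _ _ (H30W.mXn _ _ _) (b1 false))).add
        (b _ _ (H30W.mind ((H30W.mVal z).and (H30W.mPk z))) fun f => ⟨(ind_mem _).1,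
          (ind_mem _).2.trans (le_add_of_nonneg_left (Nat.cast_nonneg _))⟩)
    · have hp : ω z ≠ 0 → z ∈ A := fun e => hA z (om_supp e)
      have a1 := mul_le_mul_of_nonneg_left (w_low (k₁ := k₁) (k₂ := k₂) (ω0 z).1 (ω0 _).1 (ω0 z).2
        (om_step hθ hW z (Or.inl rfl)) hp (lab o f z)) (H30W.Xn_mem (Icc p q) true z f).1
      have a2 := mul_le_mul_of_nonneg_left (w_low (k₁ := k₁) (k₂ := k₂) (ω0 z).1 (ω0 _).1 (ω0 z).2
        (om_step hθ hW z (Or.inr rfl)) hp (lab o f z)) (H30W.Xn_mem (Icc p q) false z f).1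
      have a3 := mul_le_mul_of_nonneg_left (w_low (k₁ := k₁) (k₂ := k₂) (ω0 z).1 (ω0 z).1 (ω0 z).2
        (by norm_num) hp (lab o f z)) (ind_mem (H30W.Val z f ∧ H30W.Pk z f)).1
      simp only [hw, dir, ← sum_mul, Xs]
      linarith
  · refine integral_congr_ae (ae_of_all _ fun f => ?_)
    have e1 : H30W.Val z f = Vl f z := rfl
    have e2 : H30W.Pk z f = Pk f z := rfl
    simp only [hw, e1, e2, ind, Int.lt_add_one_iff, Int.add_one_le_iff]
    by_cases a1 : Vl f z <;> by_cases a2 : Pk f z <;> simp [a1, a2]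

theorem int_FF [IsFiniteMeasure μ] (ho : Measurable o) (hk : k₁ ≤ k₂) (z : ℤ × ℤ) :
    Integrable (fun f => (FF k₁ k₂ (lab o f z) : ℝ)) μ :=
  intg (H30W.mw ho z fun l => (FF k₁ k₂ l : ℝ)) (B := k₂ - k₁) fun f => by
    exact_mod_cast (show |FF k₁ k₂ (lab o f z)| ≤ k₂ - k₁ by rw [abs_le]; unfold FF; omega)

/-- the bunch crosses almost every column of the strip -/
theorem cols (hμ : Gibbs μ) (ho : Measurable o) (hθ : |θ| < 1) (hW : 1 ≤ W) (hk : k₁ ≤ k₂) {η : ℝ}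
    (hη : η ≤ 1 / 2)
    (hlo : ∀ z, In θ c u₀ (u₁ + 1) (-W - 2) (-W) z → μ.real {f | k₁ < lab o f z} ≤ η)
    (hhi : ∀ z, In θ c u₀ (u₁ + 1) W (W + 2) z → μ.real {f | lab o f z < k₂} ≤ η) :
    (k₂ - k₁) * (1 - 2 * η) * (((1 + θ) * (u₁ - u₀ - 2 * W - 1) - 2 * W - 4) / 2 - 1) ≤
      ∫ f, ∑ z ∈ St θ c (u₀ + W + 1) (u₁ - W) (-W - 2) W,
        ((FF k₁ k₂ (lab o f (z + (0, 1))) - FF k₁ k₂ (lab o f z) : ℤ) : ℝ) ∂μ := by
  have := hμ.1
  have hθ' := abs_lt.1 hθ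
  have W1 : (1 : ℝ) ≤ W := by exact_mod_cast hW
  have k0 : (0 : ℝ) ≤ k₂ - k₁ := by exact_mod_cast sub_nonneg.2 hk
  have x0 := Int.le_ceil (((1 + θ) * (u₀ + W + 1) + c + W + 2) / 2)
  have x0' := Int.ceil_lt_add_one (((1 + θ) * (u₀ + W + 1) + c + W + 2) / 2)
  have x1 := Int.floor_le (((1 + θ) * (u₁ - W) + c - W - 2) / 2)
  have x1' := Int.lt_floor_add_one (((1 + θ) * (u₁ - W) + c - W - 2) / 2)
  generalize ⌈((1 + θ) * (u₀ + W + 1) + c + W + 2) / 2⌉ = a at x0 x0'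
  generalize ⌊((1 + θ) * (u₁ - W) + c - W - 2) / 2⌋ = b at x1 x1'
  have hX : ∀ x ∈ Icc a b, ∀ t, -W - 2 ≤ ss θ c (x, t) → ss θ c (x, t) ≤ W + 2 →
      u₀ + W + 1 ≤ x - t ∧ x - t ≤ u₁ - W := fun x hx t t1 t2 => by
    have c1 : (a : ℝ) ≤ x := by exact_mod_cast (mem_Icc.1 hx).1
    have c2 : (x : ℝ) ≤ b := by exact_mod_cast (mem_Icc.1 hx).2
    simp only [ss] at t1 t2
    constructor <;> refine Int.cast_le (R := ℝ).1 (le_of_mul_le_mul_left ?_
      (show 0 < 1 + θ by linarith)) <;> push_cast <;> linarith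
  have m1 : ∀ z, MeasurableSet {f | k₁ < lab o f z} := fun z => meas_rng (H30W.mlab ho) z _
  have m2 : ∀ z, MeasurableSet {f | lab o f z < k₂} := fun z =>
    meas_rng (H30W.mlab ho) z fun u => u < k₂
  have i1 := fun z => intg (μ := μ) (meas_ind (m1 z)) fun f => ind_abs _
  have i2 := fun z => intg (μ := μ) (meas_ind (m2 z)) fun f => ind_abs _
  have i3 : ∀ x, Integrable (fun f => ((k₂ : ℝ) - k₁) * (1 - ind (lab o f (x, tt θ c W x) < k₂) -
      ind (k₁ < lab o f (x, tb θ c (-W - 2) x)))) μ := fun x =>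
    (((integrable_const 1).sub (i2 _)).sub (i1 _)).const_mul _
  have i4 := int_FF (μ := μ) ho hk
  push_cast
  refine le_trans ?_ (integral_mono_ae (integrable_finsetSum (Icc a b) fun x _ => i3 x)
    (integrable_finsetSum _ fun z _ => (i4 _).sub (i4 _)) (hμ.2.1.mono fun f hf => ?_))
  · rw [integral_finsetSum _ fun x _ => i3 x]
    refine le_trans ?_ (card_nsmul_le_sum _ _ ((k₂ - k₁) * (1 - 2 * η)) fun x hx => ?_)
    · rw [nsmul_eq_mul, mul_comm ((Icc a b).card : ℝ), Int.card_Icc]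
      refine mul_le_mul_of_nonneg_left ?_ (mul_nonneg k0 (by linarith))
      have : ((b + 1 - a : ℤ) : ℝ) ≤ ((b + 1 - a).toNat : ℕ) := by
        exact_mod_cast Int.self_le_toNat _
      push_cast at this
      linarith
    · have a1 := ss_tt (c := c) hθ W x
      have a2 := ss_tb (c := c) hθ (-W - 2) x
      have a3 := hX x hx _ (by linarith) a1.2
      have a4 := hX x hx _ a2.1 (by linarith)
      have a5 := hhi (x, tt θ c W x) ⟨by simp only; omega, by simp only; omega, a1⟩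
      have a6 := hlo (x, tb θ c (-W - 2) x)
        ⟨by simp only; omega, by simp only; omega, a2.1, by linarith⟩
      rw [integral_const_mul, integral_sub (f := fun f => 1 - ind (lab o f (x, tt θ c W x) < k₂))
        ((integrable_const 1).sub (i2 _)) (i1 _),
        integral_sub (integrable_const 1) (i2 _), int_ind μ (m1 _), int_ind μ (m2 _),
        integral_const, probReal_univ, one_smul]
      exact mul_le_mul_of_nonneg_left (by linarith) k0
  · refine le_trans (sum_le_sum fun x _ => ?_) (col hθ (by linarith) (Icc a b)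
      (fun x hx t t1 t2 => hX x hx t t1 (by linarith)) (fun z => (FF k₁ k₂ (lab o f z) : ℝ))
      fun z => ?_)
    · generalize lab o f (x, tt θ c W x) = s
      generalize lab o f (x, tb θ c (-W - 2) x) = t
      unfold ind FF
      split_ifs <;> norm_num <;> norm_cast <;> omega
    · have := stepN (lab_Lab o) hf z
      exact_mod_cast (show FF k₁ k₂ (lab o f z) ≤ FF k₁ k₂ (lab o f (z + (0, 1))) by
        unfold FF; omega)

/-- the virial inequality in the mean -/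
theorem micro (hμ : Gibbs μ) {p q : ℤ × ℤ} (ho : OffOk o p q) (hθ : |θ| < 1) (hW : 1 ≤ W)
    (hu : u₀ ≤ u₁) (hk : k₁ ≤ k₂) {T : ℕ} (hT : 1 ≤ T) {η Jm : ℝ} (hη : η ≤ 1 / 2)
    (hS : St θ c (u₀ - T) (u₁ + T) (-W - 4) (W + 2 * T) ⊆ Icc p q)
    (hJ : ∀ j, k₁ ≤ j → j ≤ k₂ + 1 →
      JJ μ (Icc p q) o j (St θ c (u₀ - T) (u₁ + T) (-W - 4) (W + 2 * T)) ≤ Jm)
    (hlo : ∀ z, In θ c u₀ (u₁ + 1) (-W - 2) (-W) z → μ.real {f | k₁ < lab o f z} ≤ η)
    (hhi : ∀ z, In θ c u₀ (u₁ + 1) W (W + 2) z → μ.real {f | lab o f z < k₂} ≤ η) (h0 : 0 ≤ η) :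
    (1 - θ) * ((k₂ - k₁) * (1 - 2 * η) *
        (((1 + θ) * (u₁ - u₀ - 2 * W - 1) - 2 * W - 4) / 2 - 1)) ≤
      (8 * (k₂ - k₁) + 2 * W + 4) * Jm + 2 * (4 * ((u₁ - u₀ + 2 * T + 1) * (W + T + 3)) / T +
        2 ^ T ^ 2 * T ^ 2 * ((k₂ - k₁ + 2) * Jm)) + 6 * ((W + 1) * (W + 4)) +
        (2 * W + 4) * ((u₁ - u₀ + 2) * 2 * η) := by
  have := hμ.1
  have hθ' := abs_lt.1 hθ
  have W1 : (1 : ℝ) ≤ W := by exact_mod_cast hW
  have T1 : (1 : ℝ) ≤ T := by exact_mod_cast hT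
  have hA : ∀ z, In θ c u₀ u₁ (-W - 2) (W + 2) z →
      z ∈ St θ c (u₀ - T) (u₁ + T) (-W - 4) (W + 2 * T) := fun z ⟨a1, a2, a3, a4⟩ =>
    mem_St.2 ⟨by omega, by omega, by linarith, by linarith⟩
  have h1 := ward_om hμ ho hθ hW hk hA hS fun j j1 j2 => hJ j j1 (by omega)
  have h2 := peaks hμ ho.1 (fun f g _ _ h z e => by unfold lab; rw [e, ho.2 f g h]) hθ hT
    (by linarith) hu hk hS hJ
  have h3 := mul_le_mul_of_nonneg_left (cols hμ ho.1 hθ hW hk hη hlo hhi)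
    (show 0 ≤ 1 - θ by linarith)
  have m2 : ∀ z, MeasurableSet {f | lab o f z < k₂} := fun z =>
    meas_rng (H30W.mlab ho.1) z fun u => u < k₂
  have i1 : Integrable (fun f => ∑ z ∈ St θ c u₀ u₁ (-W - 4) W,
      ind (Pk f z ∧ k₁ ≤ lab o f z ∧ lab o f z < k₂)) μ := integrable_finsetSum _ fun z _ =>
    intg (meas_ind ((meas_Pk z).inter (meas_rng (H30W.mlab ho.1) z fun u => k₁ ≤ u ∧ u < k₂)))
      fun f => ind_abs _
  have i2 : Integrable (fun f => ∑ z ∈ St θ c (u₀ + W + 1) (u₁ - W) (-W - 2) W,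
      ((FF k₁ k₂ (lab o f (z + (0, 1))) - FF k₁ k₂ (lab o f z) : ℤ) : ℝ)) μ :=
    integrable_finsetSum _ fun z _ => by
      push_cast
      exact (int_FF ho.1 hk _).sub (int_FF ho.1 hk _)
  have i3 : ∀ z, Integrable (fun f => ind (lab o f z < k₂)) μ := fun z =>
    intg (meas_ind (m2 z)) fun f => ind_abs _
  have i4 := integrable_finsetSum (St θ c u₀ (u₁ + 1) W (W + 2)) fun z _ => i3 z
  have h4 : ∫ f, ∑ z ∈ St θ c u₀ (u₁ + 1) W (W + 2), ind (lab o f z < k₂) ∂μ ≤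
      (u₁ - u₀ + 2) * 2 * η := by
    rw [integral_finsetSum _ fun z _ => i3 z, sum_congr rfl fun z _ => int_ind μ (m2 z)]
    refine (sum_le_card_nsmul _ _ η fun z hz => hhi z (mem_St.1 hz)).trans ?_
    have b := card_St (θ := θ) (c := c) (show u₀ ≤ u₁ + 1 by omega)
      (show (W : ℝ) ≤ W + 2 by linarith)
    push_cast at b
    rw [nsmul_eq_mul]
    exact mul_le_mul_of_nonneg_right (by linarith) h0
  have h5 := card_St (θ := θ) (c := c) (show u₁ - W ≤ u₁ by omega)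
    (show (-W - 4 : ℝ) ≤ W + 2 by linarith)
  have h6 := mul_le_mul_of_nonneg_left h4 (show (0 : ℝ) ≤ 2 * W + 4 by linarith)
  have j1 := (i1.const_mul 2).sub (i2.const_mul (1 - θ))
  have j2 := j1.add (integrable_const (6 * (St θ c (u₁ - W) u₁ (-W - 4) (W + 2)).card : ℝ))
  have h7 := integral_mono_ae (integrable_finsetSum (Icc p q) fun z _ =>
    ((intg (meas_ind ((meas_Vl z).inter (meas_rng (H30W.mlab ho.1) z fun u => k₁ < u ∧ u ≤ k₂)))
      fun f => ind_abs _).mul_const _).sub ((intg (meas_ind ((meas_Pk z).inter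
        (meas_rng (H30W.mlab ho.1) z fun u => k₁ ≤ u ∧ u < k₂))) fun f => ind_abs _).mul_const _))
    (j2.add (i4.const_mul (2 * W + 4))) (hμ.2.1.mono fun f hf =>
      virial hθ hW (lab_Lab o) hf k₁ k₂ _ fun z hz => hS (hA z hz))
  rw [integral_add' j2 (i4.const_mul _), integral_add' j1 (integrable_const _),
    integral_sub' (i1.const_mul 2) (i2.const_mul _), integral_const_mul, integral_const_mul,
    integral_const_mul, integral_const, probReal_univ, one_smul, integral_const_mul] at h7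
  have h8 := h1.trans h7
  push_cast at h5
  linarith

end Pool.Agent.MP_151d89_pr.H71
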