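import Pool.Agent.MP_151d89_pr.H71.BV

/-!
The virial inequality for a bunch of lines in a slanted strip: deterministic part.
-/

set_option autoImplicit false
open Finset

namespace Pool.Agent.MP_151d89_pr.H71
open Pool.Agent.MP_151d89_pr.H82 Pool.Agent.MP_151d89_pr.H67 Pool.Agent.MP_151d89_pr.H30
open Classical

/-- the signed distance (x + y) - θ (x - y) - c from the axis of the strip -/
def ss (θ c : ℝ) (z : ℤ × ℤ) : ℝ := (1 - θ) * z.1 + (1 + θ) * z.2 - c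

/-- a ≤ x - y ≤ b and α ≤ (x + y) - θ (x - y) - c ≤ β -/
def In (θ c : ℝ) (a b : ℤ) (α β : ℝ) (z : ℤ × ℤ) : Prop :=
  a ≤ z.1 - z.2 ∧ z.1 - z.2 ≤ b ∧ α ≤ ss θ c z ∧ ss θ c z ≤ β

/-- the strip as a finite set -/
noncomputable def St (θ c : ℝ) (a b : ℤ) (α β : ℝ) : Finset (ℤ × ℤ) :=
  ((Icc a b ×ˢ range (⌊(β - α) / 2⌋₊ + 1)).image fun p : ℤ × ℕ =>
    (p.1 + (⌈(α + c - (1 - θ) * p.1) / 2⌉ + p.2), ⌈(α + c - (1 - θ) * p.1) / 2⌉ + p.2)).filter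
      (In θ c a b α β)

variable {θ c : ℝ}

theorem mem_St {a b : ℤ} {α β : ℝ} {z : ℤ × ℤ} : z ∈ St θ c a b α β ↔ In θ c a b α β z := by
  refine ⟨fun h => (mem_filter.1 h).2, fun h => mem_filter.2 ⟨?_, h⟩⟩
  obtain ⟨h1, h2, h3, h4⟩ := h
  unfold ss at h3 h4
  set y := ⌈(α + c - (1 - θ) * ((z.1 - z.2 : ℤ) : ℝ)) / 2⌉ with hy
  have a1 : y ≤ z.2 := Int.ceil_le.2 (by push_cast; linarith)
  have a2 : (α + c - (1 - θ) * ((z.1 - z.2 : ℤ) : ℝ)) / 2 ≤ y := Int.le_ceil _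
  obtain ⟨i, hi⟩ := Int.le.dest a1
  refine mem_image.2 ⟨(z.1 - z.2, i), mem_product.2 ⟨mem_Icc.2 ⟨h1, h2⟩,
    mem_range.2 (Nat.lt_succ_of_le (Nat.le_floor ?_))⟩, ?_⟩
  · have : (y : ℝ) + i = z.2 := by exact_mod_cast hi
    push_cast at a2
    simp only
    linarith
  · simp only [← hy, hi]
    ext <;> simp

theorem card_St {a b : ℤ} {α β : ℝ} (h1 : a ≤ b) (h2 : α ≤ β) :
    ((St θ c a b α β).card : ℝ) ≤ (b - a + 1) * ((β - α) / 2 + 1) := by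
  have h : (St θ c a b α β).card ≤ (b + 1 - a).toNat * (⌊(β - α) / 2⌋₊ + 1) :=
    (card_filter_le _ _).trans (card_image_le.trans (by simp))
  have e : (((b + 1 - a).toNat : ℕ) : ℝ) = b - a + 1 := by
    have : (((b + 1 - a).toNat : ℕ) : ℤ) = b - a + 1 := by omega
    exact_mod_cast this
  have h3 := Nat.floor_le (show 0 ≤ (β - α) / 2 by linarith)
  have h4 : (a : ℝ) ≤ b := by exact_mod_cast h1
  refine le_trans (Nat.cast_le.2 h) ?_
  push_cast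
  rw [e]
  exact mul_le_mul_of_nonneg_left (by linarith) (by linarith)

theorem ss_add (z v : ℤ × ℤ) : ss θ c (z + v) = ss θ c z + ((1 - θ) * v.1 + (1 + θ) * v.2) := by
  simp only [ss, Prod.fst_add, Prod.snd_add]; push_cast; ring

theorem ss_sub (z v : ℤ × ℤ) : ss θ c (z - v) = ss θ c z - ((1 - θ) * v.1 + (1 + θ) * v.2) := by
  simp only [ss, Prod.fst_sub, Prod.snd_sub]; push_cast; ring

/-- the cut-off along the strip -/
def gg (u₀ u₁ W u : ℤ) : ℤ := max 0 (min W (min (u - u₀) (u₁ - u)))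

/-- the profile across the strip -/
noncomputable def ps (W s : ℝ) : ℝ := if s ≤ W + 2 then max 0 (s + W + 2) else 0

/-- the virial weight -/
noncomputable def om (θ c : ℝ) (u₀ u₁ W : ℤ) (z : ℤ × ℤ) : ℝ :=
  gg u₀ u₁ W (z.1 - z.2) / W * ps W (ss θ c z)

variable {u₀ u₁ W : ℤ}

theorem ps_mem (hW : 1 ≤ W) (s : ℝ) : 0 ≤ ps W s ∧ ps W s ≤ 2 * W + 4 := by
  have : (1 : ℝ) ≤ W := by exact_mod_cast hW
  unfold ps
  split_ifs
  · exact ⟨le_max_left _ _, max_le (by linarith) (by linarith)⟩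
  · exact ⟨le_rfl, by linarith⟩

theorem ps_supp {W s : ℝ} (h : ps W s ≠ 0) : -W - 2 ≤ s ∧ s ≤ W + 2 := by
  unfold ps at h
  split_ifs at h with h1
  · exact ⟨by_contra fun hc => h (max_eq_left (by linarith)), h1⟩
  · exact absurd rfl h

theorem ps_step {W s t : ℝ} (h : t ≤ s) : ps W s - ps W t ≤ s - t := by
  unfold ps
  have := le_max_left 0 (t + W + 2)
  have := le_max_right 0 (t + W + 2)
  split_ifs
  · have : max 0 (s + W + 2) ≤ max 0 (t + W + 2) + (s - t) := max_le (by linarith) (by linarith)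
    linarith
  all_goals linarith

theorem ps_mono {W s t : ℝ} (h : t ≤ s) (hs : s ≤ W + 2) : ps W t ≤ ps W s := by
  unfold ps
  rw [if_pos hs, if_pos (h.trans hs)]
  exact max_le_max le_rfl (by linarith)

theorem gg_mem (hW : 1 ≤ W) (u : ℤ) :
    (0 : ℝ) ≤ gg u₀ u₁ W u / W ∧ (gg u₀ u₁ W u / W : ℝ) ≤ 1 := by
  have h0 : (0 : ℝ) < W := by exact_mod_cast hW
  have h1 : 0 ≤ gg u₀ u₁ W u ∧ gg u₀ u₁ W u ≤ W := by unfold gg; omega
  exact ⟨div_nonneg (by exact_mod_cast h1.1) h0.le, (div_le_one h0).2 (by exact_mod_cast h1.2)⟩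

theorem gg_step (hW : 1 ≤ W) {u u' : ℤ} (h : |u - u'| ≤ 1) (s : ℝ) :
    (gg u₀ u₁ W u / W - gg u₀ u₁ W u' / W) * ps W s ≤ 6 := by
  have h0 : (1 : ℝ) ≤ W := by exact_mod_cast hW
  have h1 : gg u₀ u₁ W u - gg u₀ u₁ W u' ≤ 1 := by rw [abs_le] at h; unfold gg; omega
  have h2 : (gg u₀ u₁ W u : ℝ) - gg u₀ u₁ W u' ≤ 1 := by exact_mod_cast h1
  have h3 := ps_mem hW s
  rw [← sub_div, div_mul_eq_mul_div, div_le_iff₀ (by linarith)]
  nlinarith

theorem om_mem (hW : 1 ≤ W) (z : ℤ × ℤ) :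
    0 ≤ om θ c u₀ u₁ W z ∧ om θ c u₀ u₁ W z ≤ 2 * W + 4 :=
  ⟨mul_nonneg (gg_mem hW _).1 (ps_mem hW _).1,
    (mul_le_of_le_one_left (ps_mem hW _).1 (gg_mem hW _).2).trans (ps_mem hW _).2⟩

theorem gg_supp {u : ℤ} (h : (gg u₀ u₁ W u / W : ℝ) ≠ 0) : u₀ < u ∧ u < u₁ := by
  have : gg u₀ u₁ W u ≠ 0 := fun e => h (by simp [e])
  unfold gg at this
  omega

theorem om_supp {z : ℤ × ℤ} (h : om θ c u₀ u₁ W z ≠ 0) : In θ c u₀ u₁ (-W - 2) (W + 2) z :=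
  have h1 := gg_supp (left_ne_zero_of_mul h)
  ⟨h1.1.le, h1.2.le, ps_supp (right_ne_zero_of_mul h)⟩

theorem om_step (hθ : |θ| < 1) (hW : 1 ≤ W) (z : ℤ × ℤ) {e : ℤ × ℤ}
    (he : e = (1, 0) ∨ e = (0, 1)) : om θ c u₀ u₁ W z - om θ c u₀ u₁ W (z - e) ≤ 8 := by
  rw [abs_lt] at hθ
  have h1 : ss θ c (z - e) ≤ ss θ c z ∧ ss θ c z - ss θ c (z - e) ≤ 2 := by
    rw [ss_sub]; rcases he with rfl | rfl <;> simp <;> constructor <;> linarith
  have h2 := gg_step (u₀ := u₀) (u₁ := u₁) hW (u := z.1 - z.2) (u' := (z - e).1 - (z - e).2)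
    (by rcases he with rfl | rfl <;> simp) (ss θ c (z - e))
  have h3 := ps_step (W := W) h1.1
  have h4 := gg_mem (u₀ := u₀) (u₁ := u₁) hW (z.1 - z.2)
  unfold om
  nlinarith

theorem om_diag (hW : 1 ≤ W) (z : ℤ × ℤ) : om θ c u₀ u₁ W (z + (1, 1)) - om θ c u₀ u₁ W z ≤
    2 * ind (In θ c u₀ u₁ (-W - 4) W z) := by
  have e : ss θ c (z + (1, 1)) = ss θ c z + 2 := by rw [ss_add]; push_cast; ring
  have e' : (z + (1, 1)).1 - (z + (1, 1)).2 = z.1 - z.2 := by simp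
  by_cases h : In θ c u₀ u₁ (-W - 4) W z
  · have h3 := ps_step (W := W) (show ss θ c z ≤ ss θ c z + 2 by linarith)
    have h4 := gg_mem (u₀ := u₀) (u₁ := u₁) hW (z.1 - z.2)
    rw [ind_pos h]
    unfold om
    rw [e, e']
    nlinarith
  · have h0 : om θ c u₀ u₁ W (z + (1, 1)) = 0 := by_contra fun hc => by
      obtain ⟨a1, a2, a3, a4⟩ := om_supp hc
      rw [e'] at a1 a2
      exact h ⟨a1, a2, by linarith, by linarith⟩
    have := (om_mem (θ := θ) (c := c) (u₀ := u₀) (u₁ := u₁) hW z).1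
    rw [ind_neg h, h0]
    linarith

theorem om_low (hθ : |θ| < 1) (hW : 1 ≤ W) (z : ℤ × ℤ) :
    (1 - θ) * ind (In θ c (u₀ + W + 1) (u₁ - W) (-W - 2) W z) -
        6 * ind (In θ c (u₁ - W) u₁ (-W - 4) (W + 2) z) -
        (2 * W + 4) * ind (In θ c u₀ (u₁ + 1) W (W + 2) z) ≤
      om θ c u₀ u₁ W (z + (1, 1)) - om θ c u₀ u₁ W (z + (0, 1)) := by
  rw [abs_lt] at hθ
  have h0 : (1 : ℝ) ≤ W := by exact_mod_cast hW
  have e1 : ss θ c (z + (1, 1)) = ss θ c z + 2 := by rw [ss_add]; push_cast; ring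
  have e2 : ss θ c (z + (0, 1)) = ss θ c z + (1 + θ) := by rw [ss_add]; push_cast; ring
  have e3 : (z + (1, 1)).1 - (z + (1, 1)).2 = z.1 - z.2 := by simp
  have e4 : (z + (0, 1)).1 - (z + (0, 1)).2 = z.1 - z.2 - 1 := by simp; ring
  have i2 := ind_mem (In θ c (u₁ - W) u₁ (-W - 4) (W + 2) z)
  have i3 := ind_mem (In θ c u₀ (u₁ + 1) W (W + 2) z)
  have i4 : 0 ≤ (2 * (W : ℝ) + 4) * ind (In θ c u₀ (u₁ + 1) W (W + 2) z) :=
    mul_nonneg (by linarith) i3.1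
  unfold om
  rw [e1, e2, e3, e4]
  by_cases h : In θ c (u₀ + W + 1) (u₁ - W) (-W - 2) W z
  · obtain ⟨a1, a2, a3, a4⟩ := id h
    rw [ind_pos h, show gg u₀ u₁ W (z.1 - z.2) = W by unfold gg; omega,
      show gg u₀ u₁ W (z.1 - z.2 - 1) = W by unfold gg; omega, div_self (by linarith)]
    unfold ps
    rw [if_pos (by linarith), if_pos (by linarith), max_eq_right (by linarith),
      max_eq_right (by linarith)]
    linarith
  rw [ind_neg h]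
  have g1 := gg_mem (u₀ := u₀) (u₁ := u₁) hW (z.1 - z.2)
  have g2 := gg_mem (u₀ := u₀) (u₁ := u₁) hW (z.1 - z.2 - 1)
  have p1 := ps_mem hW (ss θ c z + 2)
  have p2 := ps_mem hW (ss θ c z + (1 + θ))
  by_cases hz : gg u₀ u₁ W (z.1 - z.2 - 1) / W * ps W (ss θ c z + (1 + θ)) = 0
  · rw [hz]
    nlinarith [mul_nonneg g1.1 p1.1]
  have b1 := gg_supp (left_ne_zero_of_mul hz)
  have b2 := ps_supp (right_ne_zero_of_mul hz)
  by_cases hs : ss θ c z ≤ W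
  · have m := mul_le_mul_of_nonneg_left
      (ps_mono (W := W) (show ss θ c z + (1 + θ) ≤ ss θ c z + 2 by linarith) (by linarith)) g1.1
    by_cases hr : In θ c (u₁ - W) u₁ (-W - 4) (W + 2) z
    · have := gg_step (u₀ := u₀) (u₁ := u₁) hW (u := z.1 - z.2 - 1) (u' := z.1 - z.2)
        (by simp) (ss θ c z + (1 + θ))
      rw [ind_pos hr]
      nlinarith
    · have c1 : ¬ (u₁ - W ≤ z.1 - z.2) := fun e => hr ⟨e, by omega, by linarith, by linarith⟩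
      have c2 : gg u₀ u₁ W (z.1 - z.2 - 1) ≤ gg u₀ u₁ W (z.1 - z.2) := by unfold gg; omega
      have c3 : (gg u₀ u₁ W (z.1 - z.2 - 1) / W : ℝ) ≤ gg u₀ u₁ W (z.1 - z.2) / W :=
        div_le_div_of_nonneg_right (by exact_mod_cast c2) (by linarith)
      have := mul_le_mul_of_nonneg_right c3 p2.1
      rw [ind_neg hr]
      linarith
  · rw [ind_pos (show In θ c u₀ (u₁ + 1) W (W + 2) z from
      ⟨by omega, by omega, by linarith, by linarith⟩)]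
    nlinarith [mul_nonneg g1.1 p1.1, mul_le_of_le_one_left p2.1 g2.2]

/-- the number of lines of the bunch below a site with label a -/
def FF (k₁ k₂ a : ℤ) : ℤ := max k₁ (min a k₂) - k₁

variable {L : Conf → ℤ × ℤ → ℤ} {f : Conf}

theorem face (hL : Lab L) (hf : Hom f) (k₁ k₂ : ℤ) (z : ℤ × ℤ) :
    ind (Vl f (z + (1, 1)) ∧ k₁ < L f (z + (1, 1)) ∧ L f (z + (1, 1)) ≤ k₂) -
        ind (Pk f z ∧ k₁ ≤ L f z ∧ L f z < k₂) =
      (FF k₁ k₂ (L f (z + (1, 0) + (0, 1))) - FF k₁ k₂ (L f (z + (1, 0))) : ℤ) -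
        (FF k₁ k₂ (L f (z + (0, 1))) - FF k₁ k₂ (L f z) : ℤ) := by
  have e1 : z + (1, 0) + (0, 1) = z + (1, 1) := by ext <;> simp
  have e2 : z + (0, 1) + (1, 0) = z + (1, 1) := by ext <;> simp
  have e3 : z + (1, 1) - (1, 0) = z + (0, 1) := by ext <;> simp
  have e4 : z + (1, 1) - (0, 1) = z + (1, 0) := by ext <;> simp
  have h1 := stepE hL hf z
  have h2 := stepN hL hf z
  have h3 := stepE hL hf (z + (0, 1))
  have h4 := stepN hL hf (z + (1, 0))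
  rw [e2] at h3
  rw [e1] at h4 ⊢
  unfold ind Vl Pk FF
  rw [e3, e4, sub_eq_iff_eq_add]
  split_ifs <;> norm_cast <;> omega

theorem shift' (h : ℤ × ℤ → ℝ) (B B' : Finset (ℤ × ℤ)) (v : ℤ × ℤ) (h1 : ∀ y, h y ≠ 0 → y ∈ B)
    (h2 : ∀ y, h (y + v) ≠ 0 → y ∈ B') : ∑ y ∈ B', h (y + v) = ∑ y ∈ B, h y := by
  rw [← finsum_eq_sum_of_support_subset (fun y => h (y + v)) (s := B') h2,
    ← finsum_eq_sum_of_support_subset h (s := B) h1]
  exact finsum_comp_equiv (Equiv.addRight v)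

theorem sum_In (D : Finset (ℤ × ℤ)) (a b : ℤ) (α β : ℝ) {X : ℤ × ℤ → ℝ} (hX : ∀ z, 0 ≤ X z) :
    ∑ z ∈ D, ind (In θ c a b α β z) * X z ≤ ∑ z ∈ St θ c a b α β, X z := by
  simp only [ind, ite_mul, one_mul, zero_mul]
  rw [← sum_filter]
  exact sum_le_sum_of_subset_of_nonneg (fun z hz => mem_St.2 (mem_filter.1 hz).2) fun z _ _ => hX z

/-- the virial inequality -/
theorem virial (hθ : |θ| < 1) (hW : 1 ≤ W) (hL : Lab L) (hf : Hom f) (k₁ k₂ : ℤ)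
    (B : Finset (ℤ × ℤ)) (hB : ∀ z, In θ c u₀ u₁ (-W - 2) (W + 2) z → z ∈ B) :
    ∑ z ∈ B, (ind (Vl f z ∧ k₁ < L f z ∧ L f z ≤ k₂) * om θ c u₀ u₁ W z -
        ind (Pk f z ∧ k₁ ≤ L f z ∧ L f z < k₂) * om θ c u₀ u₁ W z) ≤
      2 * ∑ z ∈ St θ c u₀ u₁ (-W - 4) W, ind (Pk f z ∧ k₁ ≤ L f z ∧ L f z < k₂) -
        (1 - θ) * ∑ z ∈ St θ c (u₀ + W + 1) (u₁ - W) (-W - 2) W,
          ((FF k₁ k₂ (L f (z + (0, 1))) - FF k₁ k₂ (L f z) : ℤ) : ℝ) +
        6 * (St θ c (u₁ - W) u₁ (-W - 4) (W + 2)).card +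
        (2 * W + 4) * ∑ z ∈ St θ c u₀ (u₁ + 1) W (W + 2), ind (L f z < k₂) := by
  have hθ' := abs_lt.1 hθ
  have h0 : (1 : ℝ) ≤ W := by exact_mod_cast hW
  set ω := om θ c u₀ u₁ W with hω
  set D := St θ c (u₀ - 1) (u₁ + 1) (-W - 4) (W + 2) with hD
  set G : ℤ × ℤ → ℝ := fun z => ((FF k₁ k₂ (L f (z + (0, 1))) - FF k₁ k₂ (L f z) : ℤ) : ℝ)
  set pk : ℤ × ℤ → ℝ := fun z => ind (Pk f z ∧ k₁ ≤ L f z ∧ L f z < k₂)
  have hG : ∀ z, 0 ≤ G z ∧ G z ≤ 1 ∧ G z ≤ ind (L f z < k₂) := fun z => by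
    have := stepN hL hf z
    simp only [G, ind, FF]
    split_ifs <;> norm_cast <;> omega
  have hd : ∀ (z v : ℤ × ℤ), v = (0, 0) ∨ v = (0, 1) ∨ v = (1, 1) → ω (z + v) ≠ 0 → z ∈ D := by
    intro z v hv h
    obtain ⟨a1, a2, a3, a4⟩ := om_supp h
    rw [ss_add] at a3 a4
    rcases hv with rfl | rfl | rfl <;> simp only [Prod.fst_add, Prod.snd_add] at a1 a2 <;>
      push_cast at a3 a4 <;> exact mem_St.2 ⟨by omega, by omega, by linarith, by linarith⟩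
  have s1 := shift' (fun z => ind (Vl f z ∧ k₁ < L f z ∧ L f z ≤ k₂) * ω z) B D (1, 1)
    (fun y h => hB y (om_supp (right_ne_zero_of_mul h)))
    fun y h => hd y _ (by simp) (right_ne_zero_of_mul h)
  have s2 := shift' (fun z => pk z * ω z) B D (0, 0)
    (fun y h => hB y (om_supp (right_ne_zero_of_mul h)))
    fun y h => hd y _ (by simp) (right_ne_zero_of_mul h)
  have e1 : ∀ y : ℤ × ℤ, y + (1, 0) + (0, 1) = y + (1, 1) := fun y => by ext <;> simp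
  have s3 := shift' (fun z => ω (z + (0, 1)) * G z) D D (1, 0)
    (fun y h => hd y _ (by simp) (left_ne_zero_of_mul h))
    fun y h => hd y (1, 1) (by simp) (e1 y ▸ left_ne_zero_of_mul h)
  simp only [Prod.mk_zero_zero, add_zero] at s2
  simp only [e1] at s3
  have t1 := sum_In (θ := θ) (c := c) D u₀ u₁ (-W - 4) W (X := pk) fun z => (ind_mem _).1
  have t2 := sum_In (θ := θ) (c := c) D (u₁ - W) u₁ (-W - 4) (W + 2) (X := fun _ => 1)
    fun _ => zero_le_one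
  have t3 := sum_In (θ := θ) (c := c) D u₀ (u₁ + 1) W (W + 2) (X := fun z => ind (L f z < k₂))
    fun z => (ind_mem _).1
  have t4 : ∑ z ∈ St θ c (u₀ + W + 1) (u₁ - W) (-W - 2) W, G z ≤
      ∑ z ∈ D, ind (In θ c (u₀ + W + 1) (u₁ - W) (-W - 2) W z) * G z := by
    refine le_trans (le_of_eq (sum_congr rfl fun z hz => ?_)) (sum_le_sum_of_subset_of_nonneg
      (fun z hz => ?_) fun z _ _ => mul_nonneg (ind_mem _).1 (hG z).1)
    · rw [ind_pos (mem_St.1 hz), one_mul]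
    · obtain ⟨a1, a2, a3, a4⟩ := mem_St.1 hz
      exact mem_St.2 ⟨by omega, by omega, by linarith, by linarith⟩
  rw [sum_const, nsmul_eq_mul, mul_one] at t2
  have key : ∑ z ∈ D, (ind (Vl f (z + (1, 1)) ∧ k₁ < L f (z + (1, 1)) ∧ L f (z + (1, 1)) ≤ k₂) *
      ω (z + (1, 1)) - pk z * ω z - ω (z + (1, 1)) * G (z + (1, 0)) + ω (z + (0, 1)) * G z) ≤
      ∑ z ∈ D, (2 * (ind (In θ c u₀ u₁ (-W - 4) W z) * pk z) -
        (1 - θ) * (ind (In θ c (u₀ + W + 1) (u₁ - W) (-W - 2) W z) * G z) +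
        6 * (ind (In θ c (u₁ - W) u₁ (-W - 4) (W + 2) z) * 1) +
        (2 * W + 4) * (ind (In θ c u₀ (u₁ + 1) W (W + 2) z) * ind (L f z < k₂))) := by
    refine sum_le_sum fun z _ => ?_
    have f1 : ind (Vl f (z + (1, 1)) ∧ k₁ < L f (z + (1, 1)) ∧ L f (z + (1, 1)) ≤ k₂) =
        pk z + (G (z + (1, 0)) - G z) := by
      have := face hL hf k₁ k₂ z
      simp only [G, pk]
      linarith
    have f2 := mul_le_mul_of_nonneg_right (om_diag (θ := θ) (c := c) (u₀ := u₀) (u₁ := u₁) hW z)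
      (ind_mem (Pk f z ∧ k₁ ≤ L f z ∧ L f z < k₂)).1
    have f3 := mul_le_mul_of_nonneg_right (om_low (c := c) (u₀ := u₀) (u₁ := u₁) hθ hW z)
      (hG z).1
    have f4 := mul_le_mul_of_nonneg_left (hG z).2.1
      (ind_mem (In θ c (u₁ - W) u₁ (-W - 4) (W + 2) z)).1
    have f5 := mul_le_mul_of_nonneg_left (mul_le_mul_of_nonneg_left (hG z).2.2
      (ind_mem (In θ c u₀ (u₁ + 1) W (W + 2) z)).1) (show (0 : ℝ) ≤ 2 * W + 4 by linarith)
    rw [f1]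
    simp only [pk, hω] at f2 f3 ⊢
    linarith
  simp only [sum_add_distrib, sum_sub_distrib, ← mul_sum] at key ⊢
  have t5 := mul_le_mul_of_nonneg_left t4 (show 0 ≤ 1 - θ by linarith)
  have t6 := mul_le_mul_of_nonneg_left t3 (show (0 : ℝ) ≤ 2 * W + 4 by linarith)
  linarith

end Pool.Agent.MP_151d89_pr.H71
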